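import Pool.Agent.Helper2_Pak.StmtsP

/-!
# PAK1: common lemmas for PB4 and PC2
-/

namespace Pool.Agent.Helper2_Pak.H17

open Pool.Agent.Helper2_Pack (Polygon pt Crosses region IsSimple chainVal)

theorem getD_mem_tail (L : Polygon) (i : ℕ) (h : i + 1 < L.length) :
    L.getD (i + 1) 0 ∈ L.tail := by
  rw [List.getD_eq_getElem _ _ h]
  have e : L[i + 1] = L.tail[i]'(by simp; omega) := by simp
  rw [e]
  exact List.getElem_mem _

theorem getD_mem_dropLast (L : Polygon) (i : ℕ) (h : i + 1 < L.length) :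
    L.getD i 0 ∈ L.dropLast := by
  rw [List.getD_eq_getElem _ _ (by omega)]
  have e : L[i] = L.dropLast[i]'(by simp; omega) := by simp
  rw [e]
  exact List.getElem_mem _

theorem head_getD {L : Polygon} {A : ℚ × ℚ} (hA : L.head? = some A) : L.getD 0 0 = A := by
  cases L with
  | nil => simp at hA
  | cons a L => simpa using hA

theorem last_getD {L : Polygon} {B : ℚ × ℚ} (hB : L.getLast? = some B) :
    L.getD (L.length - 1) 0 = B := by
  rw [List.getLast?_eq_getElem?] at hB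
  rw [List.getD_eq_getElem?_getD, hB]
  rfl

/-- the points of a path on the vertical line of its first corner -/
theorem left_pt {L : Polygon} {A : ℚ × ℚ} (hA : L.head? = some A) (ht : ∀ p ∈ L.tail, A.1 < p.1)
    {z : ℂ} (hz : z ∈ pathSet L) (hre : z.re ≤ A.1) : z = pt A := by
  rcases hz with ⟨i, hi, hs⟩ | ⟨p, hp, rfl⟩
  · obtain ⟨α, β, hα, hβ, hαβ, rfl⟩ := hs
    have hQ := ht _ (getD_mem_tail L i hi)
    have hQ' : (A.1 : ℝ) < ((L.getD (i + 1) 0).1 : ℝ) := by exact_mod_cast hQ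
    have hP : i = 0 ∨ A.1 < (L.getD i 0).1 := by
      rcases Nat.eq_zero_or_pos i with h | h
      · exact Or.inl h
      · right
        obtain ⟨j, rfl⟩ : ∃ j, i = j + 1 := ⟨i - 1, by omega⟩
        exact ht _ (getD_mem_tail L j (by omega))
    have hP' : (A.1 : ℝ) ≤ ((L.getD i 0).1 : ℝ) := by
      rcases hP with h | h
      · rw [h, head_getD hA]
      · exact_mod_cast h.le
    simp only [pt, Complex.add_re, Complex.real_smul, Complex.mul_re, Complex.ofReal_re,
      Complex.ofReal_im, zero_mul, sub_zero] at hre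
    have hβ0 : β = 0 := by
      by_contra hne
      have hβp : 0 < β := lt_of_le_of_ne hβ (Ne.symm hne)
      have h1 := mul_nonneg hα (sub_nonneg.2 hP')
      have h2 := mul_pos hβp (sub_pos.2 hQ')
      have h3 : α * (A.1 : ℝ) + β * (A.1 : ℝ) = A.1 := by rw [← add_mul, hαβ, one_mul]
      linarith [mul_sub α ((L.getD i 0).1 : ℝ) (A.1 : ℝ),
        mul_sub β ((L.getD (i + 1) 0).1 : ℝ) (A.1 : ℝ)]
    have hα1 : α = 1 := by linarith
    subst hβ0 hα1
    simp only [one_mul, zero_mul, add_zero] at hre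
    rcases hP with h | h
    · rw [h, head_getD hA]; simp
    · exfalso
      have : (A.1 : ℝ) < ((L.getD i 0).1 : ℝ) := by exact_mod_cast h
      linarith
  · rw [hp] at hA
    simp only [List.head?_cons, Option.some.injEq] at hA
    rw [hA]

/-- the points of a path on the vertical line of its last corner -/
theorem right_pt {L : Polygon} {B : ℚ × ℚ} (hB : L.getLast? = some B)
    (ht : ∀ p ∈ L.dropLast, p.1 < B.1)
    {z : ℂ} (hz : z ∈ pathSet L) (hre : (B.1 : ℝ) ≤ z.re) : z = pt B := by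
  rcases hz with ⟨i, hi, hs⟩ | ⟨p, hp, rfl⟩
  · obtain ⟨α, β, hα, hβ, hαβ, rfl⟩ := hs
    have hQ := ht _ (getD_mem_dropLast L i hi)
    have hQ' : ((L.getD i 0).1 : ℝ) < (B.1 : ℝ) := by exact_mod_cast hQ
    have hP : i + 1 = L.length - 1 ∨ (L.getD (i + 1) 0).1 < B.1 := by
      rcases Nat.lt_or_ge (i + 2) L.length with h | h
      · right
        exact ht _ (getD_mem_dropLast L (i + 1) h)
      · left; omega
    have hP' : ((L.getD (i + 1) 0).1 : ℝ) ≤ (B.1 : ℝ) := by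
      rcases hP with h | h
      · rw [h, last_getD hB]
      · exact_mod_cast h.le
    simp only [pt, Complex.add_re, Complex.real_smul, Complex.mul_re, Complex.ofReal_re,
      Complex.ofReal_im, zero_mul, sub_zero] at hre
    have hα0 : α = 0 := by
      by_contra hne
      have hαp : 0 < α := lt_of_le_of_ne hα (Ne.symm hne)
      have h1 := mul_nonneg hβ (sub_nonneg.2 hP')
      have h2 := mul_pos hαp (sub_pos.2 hQ')
      have h3 : α * (B.1 : ℝ) + β * (B.1 : ℝ) = B.1 := by rw [← add_mul, hαβ, one_mul]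
      linarith only [hre, h1, h2, h3, mul_sub α (B.1 : ℝ) ((L.getD i 0).1 : ℝ),
        mul_sub β (B.1 : ℝ) ((L.getD (i + 1) 0).1 : ℝ)]
    have hβ1 : β = 1 := by linarith
    subst hα0 hβ1
    simp only [one_mul, zero_mul, zero_add] at hre
    rcases hP with h | h
    · rw [h, last_getD hB]; simp
    · exfalso
      have : ((L.getD (i + 1) 0).1 : ℝ) < (B.1 : ℝ) := by exact_mod_cast h
      linarith
  · rw [hp] at hB
    simp only [List.getLast?_singleton, Option.some.injEq] at hB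
    rw [hB]

theorem pathSet_single (p : ℚ × ℚ) : pathSet [p] = {pt p} := by
  ext z
  constructor
  · rintro (⟨i, hi, -⟩ | ⟨r, hr, rfl⟩)
    · simp at hi
    · simp only [List.cons.injEq, and_true] at hr
      rw [hr]; rfl
  · intro hz
    exact Or.inr ⟨p, rfl, hz⟩

theorem simple_single (p : ℚ × ℚ) : SimpleP [p] := by
  refine ⟨fun i hi => ?_, fun i j _ hj => ?_⟩
  · simp at hi
  · simp at hj

theorem cr_single (p : ℚ × ℚ) (z : ℂ) : cr z [p] = 0 := by
  unfold cr
  simp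

/-! ### The ceiling of a column -/

/-- the list of the ceiling of an ordinary column -/
def ceDef (G : Lay) (t : ℚ) (c : ℕ) : Polygon :=
  [(c + t / 4, G.ce t c)] ++
      (if (G.kd c).isW then tentPts (c + 1 / 4) (G.ce t c) (t ^ 3) (-t ^ 3) ++
          tentPts (c + 3 / 4) (G.ce t c) (t ^ 3) (-t ^ 3)
        else if G.spc c (G.top c - 1) then []
        else tentPts (c + 1 / 4) (G.ce t c) (1 / 64) (2 * t ^ 3) ++
          tentPts (c + 3 / 4) (G.ce t c) (1 / 64) (2 * t ^ 3)) ++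
      [(c + 1 - t / 4, G.ce t c)]

theorem cePts_def (G : Lay) (t : ℚ) (c : ℕ) (hL : (G.kd c).isL = false)
    (hR : (G.kd c).isR = false) :
    G.cePts t c = ceDef G t c ++ [((c : ℚ) + 1, (G.top c : ℚ))] := by
  have e : G.cePts t c = [(c + t / 4, G.ce t c)] ++
      (if (G.kd c).isW then tentPts (c + 1 / 4) (G.ce t c) (t ^ 3) (-t ^ 3) ++
          tentPts (c + 3 / 4) (G.ce t c) (t ^ 3) (-t ^ 3)
        else if G.spc c (G.top c - 1) then []
        else tentPts (c + 1 / 4) (G.ce t c) (1 / 64) (2 * t ^ 3) ++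
          tentPts (c + 3 / 4) (G.ce t c) (1 / 64) (2 * t ^ 3)) ++
      [(c + 1 - t / 4, G.ce t c), (c + 1, (G.top c : ℚ))] := by
    unfold Lay.cePts
    split
    · rename_i σ h; rw [h] at hL; exact absurd hL (by simp [Kind.isL])
    · rename_i σ h; rw [h] at hR; exact absurd hR (by simp [Kind.isR])
    · rfl
  rw [e, ceDef]
  simp

theorem ce_form (G : Lay) (t : ℚ) (c : ℕ) (ht : 0 < t) (ht' : t ≤ 1 / 1024) :
    (∀ p ∈ G.cePts t c, (c : ℚ) < p.1) ∧ ∃ L0 : Polygon,
      G.cePts t c = L0 ++ [((c : ℚ) + 1, G.J' t c)] ∧ ∀ p ∈ L0, p.1 < (c : ℚ) + 1 := by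
  have h3 : 0 < t ^ 3 := by positivity
  have h3' : t ^ 3 ≤ 1 / 1024 := by
    calc t ^ 3 ≤ t ^ 1 := pow_le_pow_of_le_one ht.le (by linarith) (by norm_num)
      _ ≤ 1 / 1024 := by simpa using ht'
  have h7 : 0 < t ^ 7 := by positivity
  have h7' : t ^ 7 ≤ 1 / 1024 := by
    calc t ^ 7 ≤ t ^ 1 := pow_le_pow_of_le_one ht.le (by linarith) (by norm_num)
      _ ≤ 1 / 1024 := by simpa using ht'
  have e1 : eQ true = 18 / 32 := rfl
  have e2 : eQ false = 14 / 32 := rfl
  by_cases hL : (G.kd c).isL = true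
  · obtain ⟨σ, hk⟩ : ∃ σ, G.kd c = .pL σ := by
      rcases hk : G.kd c <;> simp_all [Kind.isL]
    constructor
    · simp only [Lay.cePts, hk, tentPts, List.forall_mem_append, List.forall_mem_cons,
        List.not_mem_nil, false_imp_iff, implies_true, and_true]
      cases σ <;> simp only [e1, e2] <;> repeat' (refine And.intro ?_ ?_)
      all_goals linarith
    · refine ⟨[(c + t / 4, G.N + t ^ 4)] ++ tentPts (c + 1 / 4) (G.N + t ^ 4) (1 / 64) (2 * t ^ 3) ++
        [(c + eQ σ - t / 4, G.N + t ^ 4), (c + eQ σ - t / 4, G.N + 1 + t / 4),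
        (c + 1 - t ^ 7, G.N + 1 + t / 4)], ?_, ?_⟩
      · simp [Lay.cePts, hk, Lay.J', Kind.isL, Kind.sig]
      · simp only [tentPts, List.forall_mem_append, List.forall_mem_cons,
          List.not_mem_nil, false_imp_iff, implies_true, and_true]
        cases σ <;> simp only [e1, e2] <;> repeat' (refine And.intro ?_ ?_)
        all_goals linarith
  by_cases hR : (G.kd c).isR = true
  · obtain ⟨σ, hk⟩ : ∃ σ, G.kd c = .pR σ := by
      rcases hk : G.kd c <;> simp_all [Kind.isR]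
    constructor
    · simp only [Lay.cePts, hk, tentPts, List.forall_mem_append, List.forall_mem_cons,
        List.not_mem_nil, false_imp_iff, implies_true, and_true]
      cases σ <;> simp only [e1, e2] <;> repeat' (refine And.intro ?_ ?_)
      all_goals linarith
    · refine ⟨[(c + t ^ 7, G.N + 1 + t / 4), (c + eQ σ + t / 4, G.N + 1 + t / 4),
        (c + eQ σ + t / 4, G.N + t ^ 4)] ++
        tentPts (c + 3 / 4) (G.N + t ^ 4) (1 / 64) (2 * t ^ 3) ++
        [(c + 1 - t / 4, G.N + t ^ 4)], ?_, ?_⟩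
      · simp [Lay.cePts, hk, Lay.J', Kind.isL, Lay.top, Kind.h]
      · simp only [tentPts, List.forall_mem_append, List.forall_mem_cons,
          List.not_mem_nil, false_imp_iff, implies_true, and_true]
        cases σ <;> simp only [e1, e2] <;> repeat' (refine And.intro ?_ ?_)
        all_goals linarith
  rw [Bool.not_eq_true] at hL hR
  have hJ : G.J' t c = G.top c := by unfold Lay.J'; rw [hL]; simp
  have hce : ∀ p ∈ ceDef G t c, (c : ℚ) < p.1 ∧ p.1 < (c : ℚ) + 1 := by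
    unfold ceDef
    simp only [tentPts, List.forall_mem_append, List.forall_mem_cons,
      List.not_mem_nil, false_imp_iff, implies_true, and_true]
    refine ⟨⟨⟨by linarith, by linarith⟩, ?_⟩, by linarith, by linarith⟩
    split_ifs <;> simp only [List.forall_mem_append, List.forall_mem_cons,
      List.not_mem_nil, false_imp_iff, implies_true, and_true] <;>
      repeat' (refine And.intro ?_ ?_)
    all_goals linarith
  rw [cePts_def G t c hL hR]
  constructor
  · rw [List.forall_mem_append]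
    refine ⟨fun p hp => (hce p hp).1, ?_⟩
    simp only [List.forall_mem_cons, List.not_mem_nil, false_imp_iff, implies_true, and_true]
    linarith
  · exact ⟨ceDef G t c, by rw [hJ], fun p hp => (hce p hp).2⟩


/-! ### Numbers -/

theorem castm (m : ℕ) : (((1 / 2 : ℚ) ^ m : ℚ) : ℝ) = (1 / 2 : ℝ) ^ m := by push_cast; rfl

theorem smallQ (hG1 : G1Stmt) {m : ℕ} {G : Lay} (hG : G.OK) (hs : Small ((1 / 2) ^ m) G) :
    (0 : ℚ) < (1 / 2) ^ m ∧ ((1 / 2) ^ m : ℚ) ≤ 1 / 1024 ∧ (0 : ℝ) < (1 / 2) ^ m ∧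
      ((1 / 2) ^ m : ℝ) ≤ 1 / 1024 := by
  have h1 := (hG1 _ G hG hs).1
  have h2 : ((1 / 2) ^ m : ℝ) ≤ 1 / 1024 := h1.trans (by norm_num)
  refine ⟨by positivity, ?_, by positivity, h2⟩
  have : (((1 / 2 : ℚ) ^ m : ℚ) : ℝ) ≤ ((1 / 1024 : ℚ) : ℝ) := by
    rw [castm]; push_cast; exact h2
  exact_mod_cast this

/-! ### The walls -/

theorem top_ge (G : Lay) (c : ℕ) : G.N ≤ G.top c := Nat.le_add_right _ _

theorem N_pos (G : Lay) : 0 < G.N := by unfold Lay.N; omega

theorem port_facts {G : Lay} (hG : G.OK) {X : ℕ} (hX : X < G.M) :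
    ((G.kd X).isL = true → X + 1 < G.M ∧ (G.kd (X + 1)).isR = true ∧
      (G.kd (X + 1)).sig = (G.kd X).sig ∧ (G.kd X).h = 0 ∧ (G.kd (X + 1)).h = 0) ∧
    ((G.kd X).isR = true → 0 < X ∧ (G.kd (X - 1)).isL = true ∧ (G.kd X).h = 0 ∧
      (G.kd (X - 1)).h = 0 ∧ (G.kd (X + 1)).h = 0) := by
  constructor
  · intro hL
    obtain ⟨σ, hk⟩ : ∃ σ, G.kd X = .pL σ := by
      rcases hk : G.kd X <;> simp_all [Kind.isL]
    obtain ⟨h1, h2⟩ := hG.portL X σ hX hk
    refine ⟨h1, ?_, ?_, ?_, ?_⟩ <;> simp [hk, h2, Kind.isR, Kind.sig, Kind.h]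
  · intro hR
    obtain ⟨σ, hk⟩ : ∃ σ, G.kd X = .pR σ := by
      rcases hk : G.kd X <;> simp_all [Kind.isR]
    obtain ⟨h1, h2, h3⟩ := hG.portR X σ hX hk
    refine ⟨h1, ?_, ?_, ?_, h3⟩ <;> simp [hk, h2, Kind.isL, Kind.h]

/-- the walls of different heights are not at the ports -/
theorem ne_facts {G : Lay} (hG : G.OK) {X : ℕ} (hX : X ≤ G.M) (hne : G.topL X ≠ G.topR X) :
    (X < G.M → (G.kd X).isR = false) ∧ (0 < X → (G.kd (X - 1)).isL = false) := by
  constructor
  · intro hXM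
    by_contra h
    rw [Bool.not_eq_false] at h
    obtain ⟨h1, h2, h3, h4, -⟩ := (port_facts hG hXM).2 h
    apply hne
    unfold Lay.topL Lay.topR
    rw [if_neg (by omega), if_pos hXM]
    unfold Lay.top
    rw [h3, h4]
  · intro h0
    by_contra h
    rw [Bool.not_eq_false] at h
    obtain ⟨h1, h2, h3, h4, h5⟩ := (port_facts hG (show X - 1 < G.M by omega)).1 h
    rw [show X - 1 + 1 = X by omega] at h1 h2 h3 h5
    apply hne
    unfold Lay.topL Lay.topR
    rw [if_neg (by omega), if_pos h1]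
    unfold Lay.top
    rw [h4, h5]

theorem J_of_not {G : Lay} {t : ℚ} {X : ℕ} (h : X < G.M → (G.kd X).isR = false) :
    G.J t X = G.topR X := by
  unfold Lay.J
  rw [if_neg]
  intro h'
  simp only [Bool.and_eq_true, decide_eq_true_eq] at h'
  rw [h h'.1] at h'
  exact absurd h'.2 (by simp)

theorem J'_of_not {G : Lay} {t : ℚ} {X : ℕ} (h : (G.kd X).isL = false) :
    G.J' t X = G.top X := by
  unfold Lay.J'
  rw [h]
  simp

/-- at a wall without height the ceilings fit together -/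
theorem J_eq_J' {G : Lay} (hG : G.OK) (t : ℚ) {X : ℕ} (hX : X ≤ G.M) (h0 : 0 < X)
    (he : G.topL X = G.topR X) : G.J' t (X - 1) = G.J t X := by
  by_cases hL : (G.kd (X - 1)).isL = true
  · obtain ⟨h1, h2, h3, h4, h5⟩ := (port_facts hG (show X - 1 < G.M by omega)).1 hL
    rw [show X - 1 + 1 = X by omega] at h1 h2 h3 h5
    unfold Lay.J' Lay.J
    rw [if_pos hL, if_pos (by simp [h1, h2]), h3]
  · rw [Bool.not_eq_true] at hL
    have hR : X < G.M → (G.kd X).isR = false := by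
      intro hXM
      by_contra h
      rw [Bool.not_eq_false] at h
      obtain ⟨h1, h2, -⟩ := (port_facts hG hXM).2 h
      rw [hL] at h2
      exact absurd h2 (by simp)
    rw [J'_of_not hL, J_of_not hR, ← he]
    unfold Lay.topL
    rw [if_neg (by omega)]

/-- the depth of the wall on the left of a column -/
noncomputable def fW (t : ℝ) (y : ℝ) : ℝ :=
  if ⌊y⌋₊ % 2 = 1 then t ^ 3 * max 0 (trap t (y - ⌊y⌋₊)) else 0

/-- the depth of the wall on the right of a column -/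
noncomputable def gW (G : Lay) (t : ℝ) (X : ℕ) (y : ℝ) : ℝ :=
  if ⌊y⌋₊ % 2 = 1 then G.rw t X ⌊y⌋₊ * max 0 (trap t (y - ⌊y⌋₊)) else 0

theorem trap_le (t y : ℝ) : trap t y ≤ 1 := min_le_left _ _

theorem fW_nonneg {t : ℝ} (ht : 0 < t) (y : ℝ) : 0 ≤ fW t y := by
  unfold fW
  split_ifs
  · exact mul_nonneg (by positivity) (le_max_left _ _)
  · exact le_rfl

theorem fW_le {t : ℝ} (ht : 0 < t) (y : ℝ) : fW t y ≤ t ^ 3 := by
  unfold fW
  split_ifs
  · have : max 0 (trap t (y - ⌊y⌋₊)) ≤ 1 := max_le zero_le_one (trap_le _ _)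
    have h3 : 0 < t ^ 3 := by positivity
    nlinarith
  · positivity

theorem gW_nonneg {G : Lay} {t : ℝ} {X : ℕ} (hr : ∀ r, 0 < G.rw t X r) (y : ℝ) :
    0 ≤ gW G t X y := by
  unfold gW
  split_ifs
  · exact mul_nonneg (hr _).le (le_max_left _ _)
  · exact le_rfl

theorem gW_le {G : Lay} {t : ℝ} {X : ℕ} (ht : 0 < t) (hr : ∀ r, 0 < G.rw t X r)
    (hr' : ∀ r, G.rw t X r ≤ t / 32) (y : ℝ) : gW G t X y ≤ t / 32 := by
  unfold gW
  split_ifs
  · have : max 0 (trap t (y - ⌊y⌋₊)) ≤ 1 := max_le zero_le_one (trap_le _ _)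
    have h1 := hr ⌊y⌋₊
    have h2 := hr' ⌊y⌋₊
    nlinarith only [h2, this, h1]
  · positivity

/-- near the lower end of a cell there is no recess -/
theorem trap_neg {t : ℝ} (ht : 0 < t) {y : ℝ} {T : ℕ} (h1 : (T : ℝ) ≤ y) (h2 : y < T + t / 4)
    (ht' : t ≤ 1 / 1024) : ⌊y⌋₊ = T ∧ trap t (y - ⌊y⌋₊) < 0 := by
  have hf : ⌊y⌋₊ = T := by
    rw [Nat.floor_eq_iff (le_trans (Nat.cast_nonneg _) h1)]
    exact ⟨h1, by linarith⟩
  refine ⟨hf, ?_⟩
  rw [hf]
  unfold trap
  refine lt_of_le_of_lt ((min_le_right _ _).trans (min_le_left _ _)) ?_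
  rw [sub_neg, div_lt_iff₀ ht]
  linarith only [h2]

theorem fW_zero {t : ℝ} (ht : 0 < t) {y : ℝ} {T : ℕ} (h1 : (T : ℝ) ≤ y) (h2 : y < T + t / 4)
    (ht' : t ≤ 1 / 1024) : fW t y = 0 := by
  obtain ⟨-, h4⟩ := trap_neg ht h1 h2 ht'
  unfold fW
  rw [max_eq_left h4.le]
  simp

theorem gW_zero {G : Lay} {t : ℝ} {X : ℕ} (ht : 0 < t) {y : ℝ} {T : ℕ} (h1 : (T : ℝ) ≤ y)
    (h2 : y < T + t / 4) (ht' : t ≤ 1 / 1024) : gW G t X y = 0 := by
  obtain ⟨-, h4⟩ := trap_neg ht h1 h2 ht'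
  unfold gW
  rw [max_eq_left h4.le]
  simp

/-- all facts on a wall -/
def WallFacts (m : ℕ) (G : Lay) (X : ℕ) : Prop :=
  SimpleP (G.wallP ((1 / 2) ^ m) X) ∧
  (G.wallP ((1 / 2) ^ m) X).getLast? = some ((X : ℚ), G.J ((1 / 2) ^ m) X) ∧
  ((G.topL X = G.topR X ∧ pathSet (G.wallP ((1 / 2) ^ m) X) =
      {pt ((X : ℚ), G.J ((1 / 2) ^ m) X)} ∧ ∀ z, cr z (G.wallP ((1 / 2) ^ m) X) = 0) ∨
    (G.topL X < G.topR X ∧ pathSet (G.wallP ((1 / 2) ^ m) X) = {z : ℂ | (G.topL X : ℝ) ≤ z.im ∧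
      z.im ≤ G.topR X ∧ z.re = X - fW ((1 / 2) ^ m) z.im} ∧
      ∀ z, z ∉ pathSet (G.wallP ((1 / 2) ^ m) X) → cr z (G.wallP ((1 / 2) ^ m) X) % 2 =
        (open Classical in if (G.topL X : ℝ) ≤ z.im ∧ z.im ≤ G.topR X ∧
          X - fW ((1 / 2) ^ m) z.im < z.re ∧ z.re < X then 1 else 0)) ∨
    (G.topR X < G.topL X ∧ pathSet (G.wallP ((1 / 2) ^ m) X) = {z : ℂ | (G.topR X : ℝ) ≤ z.im ∧
      z.im ≤ G.topL X ∧ z.re = X + gW G ((1 / 2) ^ m) X z.im} ∧
      ∀ z, z ∉ pathSet (G.wallP ((1 / 2) ^ m) X) → cr z (G.wallP ((1 / 2) ^ m) X) % 2 =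
        (open Classical in if (G.topR X : ℝ) ≤ z.im ∧ z.im ≤ G.topL X ∧
          z.re < X + gW G ((1 / 2) ^ m) X z.im ∧ X ≤ z.re then 1 else 0)))

theorem wallP_head (G : Lay) (t : ℚ) {X : ℕ} (h0 : 0 < X) :
    (G.wallP t X).head? = some ((X : ℚ), G.J' t (X - 1)) := by
  unfold Lay.wallP
  rw [if_neg (by omega)]
  rfl

theorem wall_facts (hG1 : G1Stmt) (h4 : PA4Stmt) (h3 : PB3Stmt) {m : ℕ} {G : Lay} (hG : G.OK)
    (hs : Small ((1 / 2) ^ m) G) {X : ℕ} (hX : X ≤ G.M) : WallFacts m G X := by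
  obtain ⟨htq, htq', htr, htr'⟩ := smallQ hG1 hG hs
  have hrw := (hG1 _ G hG hs).2.2.2.1
  obtain ⟨b1, b2, b3⟩ := h3 m G X hG hs hX
  rcases lt_trichotomy (G.topL X) (G.topR X) with hlt | heq | hgt
  · obtain ⟨c1, c2, c3, c4⟩ := b2 hlt
    have hne := ne_facts hG hX hlt.ne
    have hJ : G.J ((1 / 2) ^ m) X = G.topR X := J_of_not hne.1
    have hlen : 2 ≤ (G.wallP ((1 / 2) ^ m) X).length := by
      unfold Lay.wallP Lay.wallPts
      rw [if_pos hlt]
      simp
    obtain ⟨d1, d2, d3, d4, d5, d6⟩ := h4 _ _ _ c1 hlen c2 c3 rfl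
    refine ⟨d1, by rw [c3, hJ], Or.inr (Or.inl ⟨hlt, ?_, ?_⟩)⟩
    · rw [d5]
      ext z
      simp only [Set.mem_ofPred_eq, Rat.cast_natCast]
      constructor
      · rintro ⟨h1, h2, h3'⟩
        refine ⟨h1, h2, ?_⟩
        rw [h3', c4 _ h1 h2]
        rfl
      · rintro ⟨h1, h2, h3'⟩
        refine ⟨h1, h2, ?_⟩
        rw [h3', c4 _ h1 h2]
        rfl
    · intro z hz
      rw [d6 z hz]
      simp only [Rat.cast_natCast]
      have hf := fW_nonneg htr z.im
      refine if_congr ?_ rfl rfl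
      constructor
      · rintro ⟨h1, h2, h5⟩
        refine ⟨h1, h2, ?_⟩
        rw [c4 _ h1 h2] at h5
        change (z.re < X - fW ((1 / 2) ^ m) z.im ∧ (X : ℝ) ≤ z.re) ∨
          (X - fW ((1 / 2) ^ m) z.im < z.re ∧ z.re < X) at h5
        rcases h5 with h5 | h5
        · exfalso; linarith only [hf, h5.1, h5.2]
        · exact h5
      · rintro ⟨h1, h2, h5⟩
        refine ⟨h1, h2, Or.inr ?_⟩
        rw [c4 _ h1 h2]
        exact h5
  · have hw : G.wallP ((1 / 2) ^ m) X = [((X : ℚ), G.J ((1 / 2) ^ m) X)] := by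
      have h0 : 0 < X := by
        rcases Nat.eq_zero_or_pos X with h | h
        · exfalso
          subst h
          unfold Lay.topL Lay.topR at heq
          rw [if_pos rfl, if_pos (by have := hG.M_pos; omega)] at heq
          have := top_ge G 0
          have := N_pos G
          omega
        · exact h
      unfold Lay.wallP
      rw [b1 heq, if_neg (by omega), J_eq_J' hG _ hX h0 heq]
    refine ⟨by rw [hw]; exact simple_single _, by rw [hw]; rfl, Or.inl ⟨heq, ?_, ?_⟩⟩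
    · rw [hw, pathSet_single]
    · intro z
      rw [hw, cr_single]
  · obtain ⟨c1, c2, c3, c4⟩ := b3 hgt
    have hne := ne_facts hG hX hgt.ne'
    have hJ : G.J ((1 / 2) ^ m) X = G.topR X := J_of_not hne.1
    have hlen : 2 ≤ (G.wallP ((1 / 2) ^ m) X).reverse.length := by
      rw [List.length_reverse]
      unfold Lay.wallP
      rw [List.length_cons]
      unfold Lay.wallPts
      rw [if_neg (by omega), if_pos hgt]
      simp
    obtain ⟨d1, d2, d3, d4, d5, d6⟩ := h4 _ _ _ c1 hlen c2 c3 rfl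
    rw [List.reverse_reverse] at d2 d3 d4
    refine ⟨d2, by rw [← List.head?_reverse, c2, hJ], Or.inr (Or.inr ⟨hgt, ?_, ?_⟩)⟩
    · rw [d3, d5]
      ext z
      simp only [Set.mem_ofPred_eq, Rat.cast_natCast]
      constructor
      · rintro ⟨h1, h2, h3'⟩
        refine ⟨h1, h2, ?_⟩
        rw [h3', c4 _ h1 h2]
        rfl
      · rintro ⟨h1, h2, h3'⟩
        refine ⟨h1, h2, ?_⟩
        rw [h3', c4 _ h1 h2]
        rfl
    · intro z hz
      rw [d4 z]
      rw [d3] at hz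
      rw [d6 z hz]
      simp only [Rat.cast_natCast]
      have hf := gW_nonneg (G := G) (t := (1 / 2) ^ m) (X := X) (fun r => (hrw X r).2.2.2) z.im
      refine if_congr ?_ rfl rfl
      constructor
      · rintro ⟨h1, h2, h5⟩
        refine ⟨h1, h2, ?_⟩
        rw [c4 _ h1 h2] at h5
        change (z.re < X + gW G ((1 / 2) ^ m) X z.im ∧ (X : ℝ) ≤ z.re) ∨
          (X + gW G ((1 / 2) ^ m) X z.im < z.re ∧ z.re < X) at h5
        rcases h5 with h5 | h5
        · exact h5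
        · exfalso; linarith only [hf, h5.1, h5.2]
      · rintro ⟨h1, h2, h5⟩
        refine ⟨h1, h2, Or.inl ?_⟩
        rw [c4 _ h1 h2]
        exact h5

/-- the horizontal extent of a wall -/
theorem wall_range (hG1 : G1Stmt) {m : ℕ} {G : Lay} (hG : G.OK) (hs : Small ((1 / 2) ^ m) G)
    {X : ℕ} (hw : WallFacts m G X) {z : ℂ} (hz : z ∈ pathSet (G.wallP ((1 / 2) ^ m) X)) :
    (X : ℝ) - (1 / 2) ^ m / 32 ≤ z.re ∧ z.re ≤ X + (1 / 2) ^ m / 32 := by
  obtain ⟨htq, htq', htr, htr'⟩ := smallQ hG1 hG hs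
  have hrw := (hG1 _ G hG hs).2.2.2.1
  have h3 : ((1 / 2 : ℝ) ^ m) ^ 3 ≤ (1 / 2) ^ m / 32 := by
    set t : ℝ := (1 / 2) ^ m
    nlinarith [mul_pos htr htr, mul_pos htr (mul_pos htr htr)]
  rcases hw.2.2 with ⟨-, h, -⟩ | ⟨-, h, -⟩ | ⟨-, h, -⟩
  · rw [h, Set.mem_singleton_iff] at hz
    rw [hz]
    simp only [pt, Rat.cast_natCast]
    constructor <;> linarith only [htr]
  · rw [h] at hz
    obtain ⟨h1, h2, h5⟩ := hz
    rw [h5]
    have := fW_nonneg htr z.im
    have := fW_le htr z.im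
    constructor <;> linarith
  · rw [h] at hz
    obtain ⟨h1, h2, h5⟩ := hz
    rw [h5]
    have := gW_nonneg (G := G) (t := (1 / 2) ^ m) (X := X) (fun r => (hrw X r).2.2.2) z.im
    have := gW_le (G := G) (t := (1 / 2) ^ m) (X := X) htr (fun r => (hrw X r).2.2.2)
      (fun r => (hrw X r).2.2.1) z.im
    constructor <;> linarith

end Pool.Agent.Helper2_Pak.H17
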