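import Pool.Agent.Helper2_Pak.Stmts

/-!
# PAK1, F4: placed tiles are solid next to the lines of the right and of the left side
-/

namespace Pool.Agent.Helper2_Pak.H17

open Pool.Agent.Helper2_Pack (Motion)

theorem norm_mul_of {c u : ℂ} (hc : ‖c‖ = 1) (hu : ‖u‖ = 1) : ‖c * u‖ = 1 := by
  rw [norm_mul, hc, hu, one_mul]

/-- rotation of a motion -/
def rotM (c : ℂ) (hc : ‖c‖ = 1) (g : Motion) : Motion := ⟨c * g.u, c * g.v, norm_mul_of hc g.unit⟩

theorem rotM_app (c : ℂ) (hc : ‖c‖ = 1) (g : Motion) (z : ℂ) :
    (rotM c hc g).app z = c * g.app z := by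
  unfold Motion.app rotM
  ring

theorem mem_interior_of_rot {t : ℝ} {c : ℂ} (hc : ‖c‖ = 1) {g : Motion} {z : ℂ}
    (h : c * z ∈ interior (tile t (rotM c hc g))) : z ∈ interior (tile t g) := by
  have hc0 : c ≠ 0 := by
    intro h0
    rw [h0, norm_zero] at hc
    exact zero_ne_one hc
  have hopen : IsOpen ((fun w : ℂ => c * w) ⁻¹' interior (tile t (rotM c hc g))) :=
    isOpen_interior.preimage (continuous_const.mul continuous_id)
  refine interior_maximal ?_ hopen h
  intro w hw
  obtain ⟨s, hs, hs'⟩ := interior_subset hw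
  refine ⟨s, hs, ?_⟩
  rw [rotM_app] at hs'
  exact mul_left_cancel₀ hc0 hs'

theorem f4 (h2 : F2Stmt) : F4Stmt := by
  intro t g a k x y ht ht' hN hy
  obtain ⟨hk, h1, h3, h4⟩ := hN
  constructor
  · intro hx1 hx2
    refine mem_interior_of_rot (c := Complex.I) (by simp) ?_
    have hk' : (k + 1) % 4 < 4 := Nat.mod_lt _ (by norm_num)
    have hpow : Complex.I ^ ((k + 1) % 4) = Complex.I * Complex.I ^ k := by
      interval_cases k <;> simp [pow_succ]
    have hrot : rot (rotM Complex.I (by simp) g) ((k + 1) % 4) = rot g k := by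
      have e : (-Complex.I) ^ ((k + 1) % 4) = -Complex.I * (-Complex.I) ^ k := by
        interval_cases k <;> simp [pow_succ]
      unfold rot rotM
      rw [e]
      linear_combination (-(g.u * (-Complex.I) ^ k)) * Complex.I_mul_I
    have hH : HY t ((k + 1) % 4) = HX t k := by
      unfold HY HX
      interval_cases k <;> simp
    have htp : tpL t (rotM Complex.I (by simp) g) ((k + 1) % 4) (-y) = rtL t g k y := by
      unfold tpL rtL
      rw [hrot, hH]
      have e1 : (rotM Complex.I (by simp) g).v.im = g.v.re := by simp [rotM]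
      have e2 : (rotM Complex.I (by simp) g).v.re = -g.v.im := by simp [rotM]
      rw [e1, e2]
      ring
    have hz : Complex.I * (⟨x, y⟩ : ℂ) = ⟨-y, x⟩ := by
      apply Complex.ext <;> simp
    rw [hz]
    refine h2 t _ (Complex.I * a - 1) ((k + 1) % 4) 0 (-y) x ht ht' ?_ (Or.inl rfl) ?_ ?_ ?_
    · refine ⟨hk', ?_, ?_, ?_⟩
      · have e : ((rotM Complex.I (by simp) g).v - (Complex.I * a - 1)).re - 1 / 2 =
            -((g.v - a).im - 1 / 2) := by
          simp [rotM]; ring
        rw [e, abs_neg]
        exact h3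
      · have e : ((rotM Complex.I (by simp) g).v - (Complex.I * a - 1)).im - 1 / 2 =
            (g.v - a).re - 1 / 2 := by
          simp [rotM]
        rw [e]
        exact h1
      · rw [hpow]
        show ‖Complex.I * g.u - Complex.I * Complex.I ^ k‖ ≤ _
        rw [← mul_sub, norm_mul, Complex.norm_I, one_mul]
        exact h4
    · have e : -y - ((Complex.I * a - 1).re + 1 / 2 + 0) = -(y - (a.im + 1 / 2)) := by
        simp; ring
      rw [e, abs_neg]
      exact hy
    · rw [htp]; exact hx1
    · rw [htp]; exact hx2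
  · intro hx1 hx2
    refine mem_interior_of_rot (c := -Complex.I) (by simp) ?_
    have hk' : (k + 3) % 4 < 4 := Nat.mod_lt _ (by norm_num)
    have hpow : Complex.I ^ ((k + 3) % 4) = -Complex.I * Complex.I ^ k := by
      interval_cases k <;> simp [pow_succ]
    have hrot : rot (rotM (-Complex.I) (by simp) g) ((k + 3) % 4) = rot g k := by
      have e : (-Complex.I) ^ ((k + 3) % 4) = Complex.I * (-Complex.I) ^ k := by
        interval_cases k <;> simp [pow_succ]
      unfold rot rotM
      rw [e]
      linear_combination (-(g.u * (-Complex.I) ^ k)) * Complex.I_mul_I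
    have hH : HY t ((k + 3) % 4) = HX t k := by
      unfold HY HX
      interval_cases k <;> simp
    have htp : tpL t (rotM (-Complex.I) (by simp) g) ((k + 3) % 4) y = -lfL t g k y := by
      unfold tpL lfL
      rw [hrot, hH]
      have e1 : (rotM (-Complex.I) (by simp) g).v.im = -g.v.re := by simp [rotM]
      have e2 : (rotM (-Complex.I) (by simp) g).v.re = g.v.im := by simp [rotM]
      rw [e1, e2]
      ring
    have hz : -Complex.I * (⟨x, y⟩ : ℂ) = ⟨y, -x⟩ := by
      apply Complex.ext <;> simp
    rw [hz]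
    refine h2 t _ (-Complex.I * a - Complex.I) ((k + 3) % 4) 0 y (-x) ht ht' ?_ (Or.inl rfl)
      ?_ ?_ ?_
    · refine ⟨hk', ?_, ?_, ?_⟩
      · have e : ((rotM (-Complex.I) (by simp) g).v - (-Complex.I * a - Complex.I)).re - 1 / 2 =
            (g.v - a).im - 1 / 2 := by
          simp [rotM]
        rw [e]
        exact h3
      · have e : ((rotM (-Complex.I) (by simp) g).v - (-Complex.I * a - Complex.I)).im - 1 / 2 =
            -((g.v - a).re - 1 / 2) := by
          simp [rotM]; ring
        rw [e, abs_neg]
        exact h1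
      · rw [hpow]
        show ‖-Complex.I * g.u - -Complex.I * Complex.I ^ k‖ ≤ _
        rw [← mul_sub, norm_mul, norm_neg, Complex.norm_I, one_mul]
        exact h4
    · have e : y - ((-Complex.I * a - Complex.I).re + 1 / 2 + 0) = y - (a.im + 1 / 2) := by
        simp
      rw [e]
      exact hy
    · rw [htp]; linarith
    · rw [htp]; linarith

end Pool.Agent.Helper2_Pak.H17
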