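import Pool.Agent.Helper17_Pak.Com

/-!
# PAK1, PB4: the upper part of the boundary is a simple path
-/

namespace Pool.Agent.Helper2_Pak.H17

open Pool.Agent.Helper2_Pack (Polygon pt Crosses region IsSimple chainVal)

/-- all facts on a ceiling -/
theorem ceil_facts (hG1 : G1Stmt) (ha3 : PA3Stmt) (hb2 : PB2Stmt) {m : ℕ} {G : Lay} (hG : G.OK)
    (hs : Small ((1 / 2) ^ m) G) {c : ℕ} (hc : c < G.M) :
    SimpleP (G.ceilP ((1 / 2) ^ m) c) ∧
    (∀ z ∈ pathSet (G.ceilP ((1 / 2) ^ m) c), (c : ℝ) ≤ z.re ∧ z.re ≤ c + 1) ∧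
    (∀ z ∈ pathSet (G.ceilP ((1 / 2) ^ m) c), z.re ≤ c → z = pt ((c : ℚ), G.J ((1 / 2) ^ m) c)) ∧
    (∀ z ∈ pathSet (G.ceilP ((1 / 2) ^ m) c), (c : ℝ) + 1 ≤ z.re →
      z = pt ((c : ℚ) + 1, G.J' ((1 / 2) ^ m) c)) := by
  obtain ⟨htq, htq', htr, htr'⟩ := smallQ hG1 hG hs
  obtain ⟨e1, e2, e3, -⟩ := hb2 m G c hG hs hc
  obtain ⟨f1, L0, f2, f3⟩ := ce_form G _ c htq htq'
  have hh : (G.ceilP ((1 / 2) ^ m) c).head? = some ((c : ℚ), G.J ((1 / 2) ^ m) c) := rfl
  obtain ⟨g1, g2, g3, -⟩ := ha3 _ _ _ e1 e2 hh e3 (by simp)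
  refine ⟨g1, ?_, ?_, ?_⟩
  · intro z hz
    have := g3 z hz
    push_cast at this
    exact this
  · intro z hz hre
    refine left_pt hh ?_ hz (by simpa using hre)
    intro p hp
    exact f1 p hp
  · intro z hz hre
    refine right_pt e3 ?_ hz (by push_cast; exact hre)
    intro p hp
    have e : G.ceilP ((1 / 2) ^ m) c = (((c : ℚ), G.J ((1 / 2) ^ m) c) :: L0) ++
        [((c : ℚ) + 1, G.J' ((1 / 2) ^ m) c)] := by
      unfold Lay.ceilP
      rw [f2]
      rfl
    rw [e, List.dropLast_concat, List.mem_cons] at hp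
    rcases hp with rfl | hp
    · simp
    · exact f3 p hp

theorem topR_of {G : Lay} {c : ℕ} (hc : c < G.M) : G.topR c = G.N + (G.kd c).h := by
  unfold Lay.topR
  rw [if_pos hc]
  rfl

theorem topL_succ (G : Lay) (c : ℕ) : G.topL (c + 1) = G.N + (G.kd c).h := by
  unfold Lay.topL
  rw [if_neg (by omega)]
  rfl

/-- the wall at `k` meets the ceiling of the column `k` only at the common end -/
theorem wall_ceil_right (hG1 : G1Stmt) (ha3 : PA3Stmt) (ha4 : PA4Stmt) (hb2 : PB2Stmt)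
    (hb3 : PB3Stmt) {m : ℕ} {G : Lay} (hG : G.OK)
    (hs : Small ((1 / 2) ^ m) G) {k : ℕ} (hk : k < G.M) {z : ℂ}
    (h1 : z ∈ pathSet (G.wallP ((1 / 2) ^ m) k)) (h2 : z ∈ pathSet (G.ceilP ((1 / 2) ^ m) k)) :
    z = pt ((k : ℚ), G.J ((1 / 2) ^ m) k) := by
  obtain ⟨htq, htq', htr, htr'⟩ := smallQ hG1 hG hs
  have hrw := (hG1 _ G hG hs).2.2.2.1
  have hw := wall_facts hG1 ha4 hb3 hG hs hk.le
  obtain ⟨c1, c2, c3, c4⟩ := ceil_facts hG1 ha3 hb2 hG hs hk
  rcases hw.2.2 with ⟨-, h, -⟩ | ⟨-, h, -⟩ | ⟨hlt, h, -⟩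
  · rw [h] at h1
    exact h1
  · rw [h] at h1
    obtain ⟨h3, h4, h5⟩ := h1
    have := fW_nonneg htr z.im
    exact c3 z h2 (by linarith)
  · have hr := wall_range hG1 hG hs hw h1
    rw [h] at h1
    obtain ⟨h3, h4, h5⟩ := h1
    have hne := ne_facts hG hk.le hlt.ne'
    have h6 := (hb2 m G k hG hs hk).2.2.2.2.2.2 z h2
      (Or.inl ⟨by linarith [hr.2], hne.1 hk⟩)
    have h7 := (abs_le.mp h6).2
    have h8 : (G.topR k : ℝ) = G.N + ((G.kd k).h : ℝ) := by rw [topR_of hk]; push_cast; rfl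
    have h9 : gW G ((1 / 2) ^ m) k z.im = 0 :=
      gW_zero htr h3 (by linarith) htr'
    exact c3 z h2 (by linarith)

/-- the wall at `k + 1` meets the ceiling of the column `k` only at the common end -/
theorem wall_ceil_left (hG1 : G1Stmt) (ha3 : PA3Stmt) (ha4 : PA4Stmt) (hb2 : PB2Stmt)
    (hb3 : PB3Stmt) {m : ℕ} {G : Lay} (hG : G.OK)
    (hs : Small ((1 / 2) ^ m) G) {k : ℕ} (hk : k < G.M) {z : ℂ}
    (h1 : z ∈ pathSet (G.wallP ((1 / 2) ^ m) (k + 1)))
    (h2 : z ∈ pathSet (G.ceilP ((1 / 2) ^ m) k)) :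
    z = pt ((k : ℚ) + 1, G.J' ((1 / 2) ^ m) k) := by
  obtain ⟨htq, htq', htr, htr'⟩ := smallQ hG1 hG hs
  have hrw := (hG1 _ G hG hs).2.2.2.1
  have hw := wall_facts hG1 ha4 hb3 hG hs (show k + 1 ≤ G.M from hk)
  obtain ⟨c1, c2, c3, c4⟩ := ceil_facts hG1 ha3 hb2 hG hs hk
  rcases hw.2.2 with ⟨heq, h, -⟩ | ⟨hlt, h, -⟩ | ⟨hlt, h, -⟩
  · rw [h, Set.mem_singleton_iff] at h1
    rw [h1, ← J_eq_J' hG _ (show k + 1 ≤ G.M from hk) (by omega) heq]
    push_cast
    rfl
  · have hr := wall_range hG1 hG hs hw h1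
    rw [h] at h1
    obtain ⟨h3, h4, h5⟩ := h1
    push_cast at h5 hr
    have hne := ne_facts hG (show k + 1 ≤ G.M from hk) hlt.ne
    have hL := hne.2 (by omega)
    rw [Nat.add_sub_cancel] at hL
    have h6 := (hb2 m G k hG hs hk).2.2.2.2.2.2 z h2 (Or.inr ⟨by linarith [hr.1], hL⟩)
    have h7 := (abs_le.mp h6).2
    have h8 : (G.topL (k + 1) : ℝ) = G.N + ((G.kd k).h : ℝ) := by
      rw [topL_succ]; push_cast; rfl
    have h9 : fW ((1 / 2) ^ m) z.im = 0 := fW_zero htr h3 (by linarith) htr'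
    exact c4 z h2 (by linarith)
  · rw [h] at h1
    obtain ⟨h3, h4, h5⟩ := h1
    push_cast at h5
    have := gW_nonneg (G := G) (t := (1 / 2) ^ m) (X := k + 1)
      (fun r => (hrw (k + 1) r).2.2.2) z.im
    exact c4 z h2 (by linarith)

theorem upP_succ (G : Lay) (t : ℚ) (k : ℕ) :
    G.upP t (k + 1) = (G.upP t k ++ (G.ceilP t k).tail) ++ (G.wallP t (k + 1)).tail := by
  unfold Lay.upP
  rw [List.range_succ, List.flatMap_append]
  simp [Lay.ceilP, Lay.wallP]

theorem pb4 (ha2 : PA2Stmt) (ha3 : PA3Stmt) (ha4 : PA4Stmt) (hb2 : PB2Stmt) (hb3 : PB3Stmt)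
    (hG1 : G1Stmt) : PB4Stmt := by
  intro m G hG hs k
  obtain ⟨htq, htq', htr, htr'⟩ := smallQ hG1 hG hs
  induction k with
  | zero =>
    intro _
    have e : G.upP ((1 / 2) ^ m) 0 = G.wallP ((1 / 2) ^ m) 0 := by
      unfold Lay.upP
      simp
    have hw := wall_facts hG1 ha4 hb3 hG hs (Nat.zero_le G.M)
    rw [e]
    refine ⟨hw.1, ?_, hw.2.1, ?_, ?_⟩
    · unfold Lay.wallP
      simp
    · simp
    · intro z
      simp
  | succ k ih =>
    intro hk
    obtain ⟨i1, i2, i3, i4, i5⟩ := ih (by omega)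
    have hkM : k < G.M := by omega
    have hw := wall_facts hG1 ha4 hb3 hG hs hk
    obtain ⟨c1, c2, c3, c4⟩ := ceil_facts hG1 ha3 hb2 hG hs hkM
    obtain ⟨e1, e2, e3, -⟩ := hb2 m G k hG hs hkM
    have hch : (G.ceilP ((1 / 2) ^ m) k).head? = some ((k : ℚ), G.J ((1 / 2) ^ m) k) := rfl
    -- first step
    obtain ⟨p1, p2, p3⟩ := ha2 _ _ _ i3 hch
    have hmeet1 : ∀ z ∈ pathSet (G.upP ((1 / 2) ^ m) k), z ∈ pathSet (G.ceilP ((1 / 2) ^ m) k) →
        z = pt ((k : ℚ), G.J ((1 / 2) ^ m) k) := by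
      intro z hz hz'
      rw [i4] at hz
      rcases hz with hz | hz
      · simp only [Set.mem_iUnion, Finset.mem_range] at hz
        obtain ⟨X, hX, hz⟩ := hz
        rcases Nat.lt_succ_iff_lt_or_eq.mp hX with hX | rfl
        · exfalso
          have hr := wall_range hG1 hG hs
            (wall_facts hG1 ha4 hb3 hG hs (show X ≤ G.M by omega)) hz
          have h1 := (c2 z hz').1
          have h2 : (X : ℝ) + 1 ≤ k := by exact_mod_cast hX
          linarith [hr.2]
        · exact wall_ceil_right hG1 ha3 ha4 hb2 hb3 hG hs hkM hz hz'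
      · simp only [Set.mem_iUnion, Finset.mem_range] at hz
        obtain ⟨c, hc, hz⟩ := hz
        have h1 := (c2 z hz').1
        have h2 := ((ceil_facts hG1 ha3 hb2 hG hs (show c < G.M by omega)).2.1 z hz).2
        have h3 : (c : ℝ) + 1 ≤ k := by exact_mod_cast hc
        exact c3 z hz' (by linarith)
    have s1 := p3 i1 c1 hmeet1
    -- second step
    have hl : (G.upP ((1 / 2) ^ m) k ++ (G.ceilP ((1 / 2) ^ m) k).tail).getLast? =
        some ((((k + 1 : ℕ) : ℚ)), G.J' ((1 / 2) ^ m) k) := by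
      have hne : (G.ceilP ((1 / 2) ^ m) k).tail ≠ [] := by
        intro h
        have := congrArg List.length h
        rw [List.length_tail, List.length_nil] at this
        omega
      rw [List.getLast?_append_of_ne_nil _ hne, List.getLast?_tail, if_neg (by omega), e3]
      push_cast
      rfl
    have hwh : (G.wallP ((1 / 2) ^ m) (k + 1)).head? =
        some ((((k + 1 : ℕ) : ℚ)), G.J' ((1 / 2) ^ m) k) := by
      rw [wallP_head G _ (by omega), Nat.add_sub_cancel]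
    obtain ⟨q1, q2, q3⟩ := ha2 _ _ _ hl hwh
    have hmeet2 : ∀ z ∈ pathSet (G.upP ((1 / 2) ^ m) k ++ (G.ceilP ((1 / 2) ^ m) k).tail),
        z ∈ pathSet (G.wallP ((1 / 2) ^ m) (k + 1)) →
        z = pt (((k + 1 : ℕ) : ℚ), G.J' ((1 / 2) ^ m) k) := by
      intro z hz hz'
      have hr' := (wall_range hG1 hG hs hw hz').1
      push_cast at hr'
      rw [p1] at hz
      rcases hz with hz | hz
      · exfalso
        rw [i4] at hz
        rcases hz with hz | hz
        · simp only [Set.mem_iUnion, Finset.mem_range] at hz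
          obtain ⟨X, hX, hz⟩ := hz
          have hr := wall_range hG1 hG hs
            (wall_facts hG1 ha4 hb3 hG hs (show X ≤ G.M by omega)) hz
          have h2 : (X : ℝ) ≤ k := by exact_mod_cast Nat.lt_succ_iff.mp hX
          linarith [hr.2]
        · simp only [Set.mem_iUnion, Finset.mem_range] at hz
          obtain ⟨c, hc, hz⟩ := hz
          have h2 := ((ceil_facts hG1 ha3 hb2 hG hs (show c < G.M by omega)).2.1 z hz).2
          have h3 : (c : ℝ) + 1 ≤ k := by exact_mod_cast hc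
          linarith
      · rw [wall_ceil_left hG1 ha3 ha4 hb2 hb3 hG hs hkM hz' hz]
        push_cast
        rfl
    have s2 := q3 s1 hw.1 hmeet2
    rw [upP_succ]
    refine ⟨s2, ?_, ?_, ?_, ?_⟩
    · rw [List.append_assoc, List.head?_append, i2]
      rfl
    · rcases hww : G.wallP ((1 / 2) ^ m) (k + 1) with _ | ⟨a, L⟩
      · rw [hww] at hwh; simp at hwh
      · have hwl := hw.2.1
        rw [hww] at hwl hwh
        rw [List.tail_cons]
        rcases L with _ | ⟨b, L⟩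
        · rw [List.append_nil, hl, ← hwl, ← hwh]
          rfl
        · rw [List.getLast?_append_of_ne_nil _ (by simp), ← hwl]
          simp [List.getLast?_cons]
    · rw [q1, p1, i4]
      ext z
      simp only [Set.mem_union, Set.mem_iUnion, Finset.mem_range, exists_prop]
      constructor
      · rintro (((⟨X, hX, h⟩ | ⟨c, hc, h⟩) | h) | h)
        · exact Or.inl ⟨X, by omega, h⟩
        · exact Or.inr ⟨c, by omega, h⟩
        · exact Or.inr ⟨k, by omega, h⟩
        · exact Or.inl ⟨k + 1, by omega, h⟩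
      · rintro (⟨X, hX, h⟩ | ⟨c, hc, h⟩)
        · rcases Nat.lt_succ_iff_lt_or_eq.mp hX with hX | rfl
          · exact Or.inl (Or.inl (Or.inl ⟨X, by omega, h⟩))
          · exact Or.inr h
        · rcases Nat.lt_succ_iff_lt_or_eq.mp hc with hc | rfl
          · exact Or.inl (Or.inl (Or.inr ⟨c, by omega, h⟩))
          · exact Or.inl (Or.inr h)
    · intro z
      rw [q2 z, p2 z, i5 z,
        Finset.sum_range_succ (fun X => cr z (G.wallP ((1 / 2) ^ m) X)) (k + 1),
        Finset.sum_range_succ (fun c => cr z (G.ceilP ((1 / 2) ^ m) c)) k]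
      ring

end Pool.Agent.Helper2_Pak.H17
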