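import Pool.Agent.Helper17_Pak.PB4

/-!
# PAK1, PC2: the points enclosed by floor and ceiling
-/

namespace Pool.Agent.Helper2_Pak.H17

open Pool.Agent.Helper2_Pack (Polygon pt Crosses region IsSimple chainVal)

theorem ite_one {n : ℕ} {Q : Prop} [Decidable Q] (h : n = if Q then 1 else 0) : n = 1 ↔ Q := by
  rw [h]
  split_ifs with hQ
  · simp [hQ]
  · simp [hQ]

theorem parity_sum (n : ℕ) (f : ℕ → ℕ) (P : ℕ → Prop)
    (h : ∀ i < n, (f i % 2 = 1 ↔ P i))
    (hu : ∀ i j, i < n → j < n → P i → P j → i = j) :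
    (∑ i ∈ Finset.range n, f i) % 2 = 1 ↔ ∃ i, i < n ∧ P i := by
  induction n with
  | zero => simp
  | succ n ih =>
    have ih' := ih (fun i hi => h i (by omega)) (fun i j hi hj => hu i j (by omega) (by omega))
    rw [Finset.sum_range_succ]
    have hn := h n (by omega)
    by_cases h1 : ∃ i, i < n ∧ P i
    · have h2 : ¬ P n := by
        intro hn
        obtain ⟨i, hi, hPi⟩ := h1
        have := hu i n (by omega) (by omega) hPi hn
        omega
      have h3 : ∃ i, i < n + 1 ∧ P i := by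
        obtain ⟨i, hi, hPi⟩ := h1
        exact ⟨i, by omega, hPi⟩
      have h4 := ih'.mpr h1
      have h5 : ¬ (f n % 2 = 1) := fun h => h2 (hn.mp h)
      exact ⟨fun _ => h3, fun _ => by omega⟩
    · have h4 : ¬ ((∑ i ∈ Finset.range n, f i) % 2 = 1) := fun h => h1 (ih'.mp h)
      by_cases h2 : P n
      · have h5 := hn.mpr h2
        exact ⟨fun _ => ⟨n, by omega, h2⟩, fun _ => by omega⟩
      · have h5 : ¬ (f n % 2 = 1) := fun h => h2 (hn.mp h)
        constructor
        · intro h6; omega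
        · rintro ⟨i, hi, hPi⟩
          exfalso
          rcases Nat.lt_succ_iff_lt_or_eq.mp hi with hi | rfl
          · exact h1 ⟨i, hi, hPi⟩
          · exact h2 hPi

/-! ### The floor -/

theorem ramp_bounds {t x : ℝ} (ht : 0 < t) (h0 : 0 ≤ x) (h1 : x ≤ 1) :
    0 ≤ ramp t x ∧ ramp t x ≤ 1 := by
  unfold ramp
  refine ⟨le_min zero_le_one (le_min ?_ ?_), min_le_left _ _⟩
  · positivity
  · exact div_nonneg (by linarith) ht.le

theorem ramp_zero (t : ℝ) (ht : 0 < t) : ramp t 0 = 0 := by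
  unfold ramp
  rw [mul_zero, zero_div]
  have : (0 : ℝ) ≤ 4 * (1 - 0) / t := by positivity
  rw [min_eq_left this, min_eq_right zero_le_one]

theorem ramp_one (t : ℝ) (ht : 0 < t) : ramp t 1 = 0 := by
  unfold ramp
  rw [sub_self, mul_zero, zero_div]
  have : (0 : ℝ) ≤ 4 * 1 / t := by positivity
  rw [min_eq_right this, min_eq_right zero_le_one]

theorem bump_bounds {t : ℝ} (ht : 0 < t) (e : ℝ) : 0 ≤ bump t e ∧ bump t e ≤ t ^ 3 := by
  unfold bump
  refine ⟨le_max_left _ _, max_le (by positivity) ?_⟩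
  have := abs_nonneg e
  linarith

theorem dent_bounds {t : ℝ} (ht : 0 < t) (e : ℝ) : 0 ≤ dent t e ∧ dent t e ≤ 2 * t ^ 3 := by
  unfold dent
  refine ⟨le_max_left _ _, max_le (by positivity) ?_⟩
  have := abs_nonneg e
  have h3 : 0 < t ^ 3 := by positivity
  nlinarith only [this, h3]

theorem bump_zero {t : ℝ} (h3 : t ^ 3 ≤ 1 / 64) {e : ℝ} (he : 1 / 64 ≤ |e|) : bump t e = 0 := by
  unfold bump
  exact max_eq_left (by linarith only [h3, he])

theorem dent_zero {t : ℝ} (h3 : 0 < t ^ 3) {e : ℝ} (he : 1 / 64 ≤ |e|) : dent t e = 0 := by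
  unfold dent
  exact max_eq_left (by nlinarith)

theorem locFl_ends (G : Lay) (c : ℕ) {t : ℝ} (ht : 0 < t) (ht' : t ≤ 1 / 1024) :
    G.locFl t c 0 = 0 ∧ G.locFl t c 1 = 0 := by
  have h3 : 0 < t ^ 3 := by positivity
  have h3' : t ^ 3 ≤ 1 / 64 := by
    calc t ^ 3 ≤ t ^ 1 := pow_le_pow_of_le_one ht.le (by linarith) (by norm_num)
      _ ≤ 1 / 64 := by rw [pow_one]; linarith only [ht']
  have a1 : (1 : ℝ) / 64 ≤ |(0 : ℝ) - 1 / 4| := by rw [abs_of_nonpos] <;> norm_num
  have a2 : (1 : ℝ) / 64 ≤ |(0 : ℝ) - 3 / 4| := by rw [abs_of_nonpos] <;> norm_num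
  have a3 : (1 : ℝ) / 64 ≤ |(1 : ℝ) - 1 / 4| := by rw [abs_of_nonneg] <;> norm_num
  have a4 : (1 : ℝ) / 64 ≤ |(1 : ℝ) - 3 / 4| := by rw [abs_of_nonneg] <;> norm_num
  unfold Lay.locFl
  rw [ramp_zero t ht, ramp_one t ht, bump_zero h3' a1, bump_zero h3' a2, bump_zero h3' a3,
    bump_zero h3' a4, dent_zero h3 a1, dent_zero h3 a2, dent_zero h3 a3, dent_zero h3 a4]
  simp

theorem locFl_le (hG1 : G1Stmt) {m : ℕ} {G : Lay} (hG : G.OK) (hs : Small ((1 / 2) ^ m) G)
    {c : ℕ} (hc : c < G.M) {x : ℝ} (h0 : 0 ≤ x) (h1 : x ≤ 1) :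
    G.locFl ((1 / 2) ^ m) c x ≤ 1 / 64 := by
  obtain ⟨htq, htq', htr, htr'⟩ := smallQ hG1 hG hs
  have hfl := ((hG1 _ G hG hs).2.2.2.2.1 c hc).1
  set t : ℝ := (1 / 2) ^ m with ht
  have h3 : 0 < t ^ 3 := by positivity
  have h3' : t ^ 3 ≤ 1 / 1024 := by
    calc t ^ 3 ≤ t ^ 1 := pow_le_pow_of_le_one htr.le (by linarith) (by norm_num)
      _ ≤ 1 / 1024 := by simpa using htr'
  obtain ⟨r1, r2⟩ := ramp_bounds htr h0 h1
  have hb : G.fl t c * ramp t x ≤ t / 64 := by
    have h4 := (abs_le.mp hfl).2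
    calc G.fl t c * ramp t x ≤ t / 64 * ramp t x := mul_le_mul_of_nonneg_right h4 r1
      _ ≤ t / 64 * 1 := mul_le_mul_of_nonneg_left r2 (by positivity)
      _ = t / 64 := mul_one _
  unfold Lay.locFl
  split_ifs
  · have := (dent_bounds htr (x - 1 / 4)).1
    have := (dent_bounds htr (x - 3 / 4)).1
    linarith
  · have := (bump_bounds htr (x - 1 / 4)).2
    have := (bump_bounds htr (x - 3 / 4)).2
    linarith

/-! ### The ceiling -/

theorem ceil_vals (hG1 : G1Stmt) (ha3 : PA3Stmt) (hb2 : PB2Stmt) {m : ℕ} {G : Lay} (hG : G.OK)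
    (hs : Small ((1 / 2) ^ m) G) {c : ℕ} (hc : c < G.M) :
    G.locCe ((1 / 2) ^ m) c 0 = (G.J ((1 / 2) ^ m) c : ℝ) ∧
    G.locCe ((1 / 2) ^ m) c 1 = (G.J' ((1 / 2) ^ m) c : ℝ) ∧
    (∀ x : ℝ, 0 ≤ x → x ≤ 1 → G.N + ((G.kd c).h : ℝ) - 1 / 64 ≤ G.locCe ((1 / 2) ^ m) c x) ∧
    (∀ x : ℝ, 0 ≤ x → x ≤ (1 / 2) ^ m / 8 → (G.kd c).isR = false →
      |G.locCe ((1 / 2) ^ m) c x - (G.N + ((G.kd c).h : ℝ))| ≤ (1 / 2) ^ m / 64) ∧
    (∀ x : ℝ, 1 - (1 / 2) ^ m / 8 ≤ x → x ≤ 1 → (G.kd c).isL = false →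
      |G.locCe ((1 / 2) ^ m) c x - (G.N + ((G.kd c).h : ℝ))| ≤ (1 / 2) ^ m / 64) := by
  obtain ⟨htq, htq', htr, htr'⟩ := smallQ hG1 hG hs
  obtain ⟨e1, e2, e3, e4, e5, e6, e7⟩ := hb2 m G c hG hs hc
  obtain ⟨c1, c2, c3, c4⟩ := ceil_facts hG1 ha3 hb2 hG hs hc
  have key : ∀ x : ℝ, 0 ≤ x → x ≤ 1 →
      (⟨c + x, G.locCe ((1 / 2) ^ m) c x⟩ : ℂ) ∈ pathSet (G.ceilP ((1 / 2) ^ m) c) := by
    intro x h0 h1
    refine e6 _ (by simpa using h0) (by simpa using h1) ?_
    simp
  refine ⟨?_, ?_, ?_, ?_, ?_⟩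
  · have := c3 _ (key 0 le_rfl zero_le_one) (by simp)
    have := congrArg Complex.im this
    exact this
  · have := c4 _ (key 1 zero_le_one le_rfl) (by simp)
    have := congrArg Complex.im this
    exact this
  · intro x h0 h1
    exact (e4 _ (key x h0 h1)).2.1
  · intro x h0 h1 hR
    exact e7 _ (key x h0 (by linarith only [htr', h1])) (Or.inl ⟨by simpa using h1, hR⟩)
  · intro x h0 h1 hL
    exact e7 _ (key x (by linarith only [htr', h0]) h1) (Or.inr ⟨by
      show (c : ℝ) + 1 - (1 / 2) ^ m / 8 ≤ c + x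
      linarith only [h0], hL⟩)

/-! ### Recesses -/

theorem of_fW {t y : ℝ} (h : fW t y ≠ 0) : ⌊y⌋₊ % 2 = 1 ∧ 0 < trap t (y - ⌊y⌋₊) ∧
    fW t y = t ^ 3 * trap t (y - ⌊y⌋₊) := by
  unfold fW at h ⊢
  split_ifs at h ⊢ with h1
  · have h2 : 0 < trap t (y - ⌊y⌋₊) := by
      by_contra h3
      rw [max_eq_left (not_lt.mp h3), mul_zero] at h
      exact h rfl
    exact ⟨h1, h2, by rw [max_eq_right h2.le]⟩
  · exact absurd rfl h

theorem of_gW {G : Lay} {X : ℕ} {t y : ℝ} (h : gW G t X y ≠ 0) : ⌊y⌋₊ % 2 = 1 ∧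
    0 < trap t (y - ⌊y⌋₊) ∧ gW G t X y = G.rw t X ⌊y⌋₊ * trap t (y - ⌊y⌋₊) := by
  unfold gW at h ⊢
  split_ifs at h ⊢ with h1
  · have h2 : 0 < trap t (y - ⌊y⌋₊) := by
      by_contra h3
      rw [max_eq_left (not_lt.mp h3), mul_zero] at h
      exact h rfl
    exact ⟨h1, h2, by rw [max_eq_right h2.le]⟩
  · exact absurd rfl h

theorem trap_range {t y : ℝ} (ht : 0 < t) (h : 0 ≤ trap t y) : t / 4 ≤ y ∧ y ≤ 1 - t / 4 := by
  unfold trap at h
  have h1 := (le_min_iff.mp (le_min_iff.mp h).2).1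
  have h2 := (le_min_iff.mp (le_min_iff.mp h).2).2
  rw [sub_nonneg, le_div_iff₀ ht] at h1 h2
  constructor <;> linarith

theorem floor_of_trap {t y : ℝ} (ht : 0 < t) {r : ℕ} (h : 0 ≤ trap t (y - r)) : ⌊y⌋₊ = r := by
  obtain ⟨h1, h2⟩ := trap_range ht h
  have : (0 : ℝ) ≤ r := Nat.cast_nonneg r
  rw [Nat.floor_eq_iff (by linarith)]
  constructor <;> linarith only [ht, h1, h2]

/-- a recess of a wall on the left of a column -/
theorem left_recess {G : Lay} {t : ℝ} (ht : 0 < t) {X : ℕ} (hlt : G.topL X < G.topR X)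
    {z : ℂ} (h1 : (G.topL X : ℝ) ≤ z.im) (h2 : z.im ≤ G.topR X) (h3 : fW t z.im ≠ 0)
    (h4 : X - fW t z.im ≤ z.re) (h5 : z.re ≤ X) : z ∈ G.cont t := by
  obtain ⟨a1, a2, a3⟩ := of_fW h3
  refine Or.inr ⟨X, ⌊z.im⌋₊, a1, a2.le, Or.inl ⟨?_, by rw [← a3]; exact h4, h5⟩⟩
  obtain ⟨b1, b2⟩ := trap_range ht a2.le
  have hXM : X < G.M := by
    by_contra h
    unfold Lay.topR at hlt
    rw [if_neg h] at hlt
    omega
  have hr1 : ⌊z.im⌋₊ < G.topR X := by
    have : ((⌊z.im⌋₊ : ℕ) : ℝ) < G.topR X := by linarith only [ht, h2, b1]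
    exact_mod_cast this
  have hr2 : G.topL X ≤ ⌊z.im⌋₊ := Nat.le_floor h1
  have hR : G.topR X = G.top X := if_pos hXM
  unfold Lay.wallL
  rw [Bool.and_eq_true]
  constructor
  · unfold Lay.pres
    rw [hR] at hr1
    simp [hXM, hr1]
  · rcases Nat.eq_zero_or_pos X with h0 | h0
    · simp [h0]
    · have hL : G.topL X = G.top (X - 1) := if_neg (by omega)
      rw [hL] at hr2
      unfold Lay.pres
      simp
      right
      exact Or.inr hr2

/-- a recess of a wall on the right of a column -/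
theorem right_recess {G : Lay} {t : ℝ} (ht : 0 < t) {X : ℕ} (hX : X ≤ G.M)
    (hlt : G.topR X < G.topL X)
    {z : ℂ} (h1 : (G.topR X : ℝ) ≤ z.im) (h2 : z.im ≤ G.topL X) (h3 : gW G t X z.im ≠ 0)
    (h4 : X ≤ z.re) (h5 : z.re ≤ X + gW G t X z.im) : z ∈ G.cont t := by
  obtain ⟨a1, a2, a3⟩ := of_gW h3
  refine Or.inr ⟨X, ⌊z.im⌋₊, a1, a2.le, Or.inr ⟨?_, h4, by rw [← a3]; exact h5⟩⟩
  obtain ⟨b1, b2⟩ := trap_range ht a2.le
  have h0 : 0 < X := by
    by_contra h
    unfold Lay.topL at hlt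
    rw [if_pos (by omega)] at hlt
    omega
  have hr1 : ⌊z.im⌋₊ < G.topL X := by
    have : ((⌊z.im⌋₊ : ℕ) : ℝ) < G.topL X := by linarith only [ht, h2, b1]
    exact_mod_cast this
  have hr2 : G.topR X ≤ ⌊z.im⌋₊ := Nat.le_floor h1
  have hL : G.topL X = G.top (X - 1) := if_neg (by omega)
  rw [hL] at hr1
  unfold Lay.wallR Lay.pres
  have h6 : X - 1 < G.M := by omega
  by_cases hXM : X < G.M
  · have hR : G.topR X = G.top X := if_pos hXM
    rw [hR] at hr2
    simp [h0, h6, hr1, hXM, hr2]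
  · simp [h0, h6, hr1, hXM]

/-! ### The main statement -/

/-- in a column, without its right side -/
def PP (m : ℕ) (G : Lay) (z : ℂ) (c : ℕ) : Prop :=
  (c : ℝ) ≤ z.re ∧ z.re < c + 1 ∧ G.locFl ((1 / 2) ^ m) c (z.re - c) ≤ z.im ∧
    z.im ≤ G.locCe ((1 / 2) ^ m) c (z.re - c)

/-- strictly inside a recess of the wall at `X` -/
def WW (m : ℕ) (G : Lay) (z : ℂ) (X : ℕ) : Prop :=
  (G.topL X < G.topR X ∧ (G.topL X : ℝ) ≤ z.im ∧ z.im ≤ G.topR X ∧
    X - fW ((1 / 2) ^ m) z.im < z.re ∧ z.re < X) ∨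
  (G.topR X < G.topL X ∧ (G.topR X : ℝ) ≤ z.im ∧ z.im ≤ G.topL X ∧
    z.re < X + gW G ((1 / 2) ^ m) X z.im ∧ X ≤ z.re)

section

variable {m : ℕ} {G : Lay}

theorem WW_range (hG1 : G1Stmt) (hG : G.OK) (hs : Small ((1 / 2) ^ m) G) {z : ℂ} {X : ℕ}
    (h : WW m G z X) : |z.re - X| ≤ 1 / 32 := by
  obtain ⟨htq, htq', htr, htr'⟩ := smallQ hG1 hG hs
  have hrw := (hG1 _ G hG hs).2.2.2.1
  rw [abs_le]
  rcases h with ⟨-, h1, h2, h3, h4⟩ | ⟨-, h1, h2, h3, h4⟩
  · have h5 := fW_le htr z.im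
    have h6 : ((1 / 2 : ℝ) ^ m) ^ 3 ≤ 1 / 1024 := by
      calc ((1 / 2 : ℝ) ^ m) ^ 3 ≤ ((1 / 2 : ℝ) ^ m) ^ 1 :=
            pow_le_pow_of_le_one htr.le (by linarith only [htr']) (by norm_num)
        _ ≤ 1 / 1024 := by rw [pow_one]; exact htr'
    constructor <;> linarith only [h3, h5, h6, h4]
  · have h5 := gW_le (G := G) (t := (1 / 2) ^ m) (X := X) htr (fun r => (hrw X r).2.2.2)
      (fun r => (hrw X r).2.2.1) z.im
    constructor <;> linarith only [h4, htr', h3, h5]

theorem WW_unique (hG1 : G1Stmt) (hG : G.OK) (hs : Small ((1 / 2) ^ m) G) {z : ℂ} {X Y : ℕ}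
    (h : WW m G z X) (h' : WW m G z Y) : X = Y := by
  have h1 := abs_le.mp (WW_range hG1 hG hs h)
  have h2 := abs_le.mp (WW_range hG1 hG hs h')
  rcases lt_trichotomy X Y with h3 | h3 | h3
  · exfalso
    have : (X : ℝ) + 1 ≤ Y := by exact_mod_cast h3
    linarith only [this, h1.1, h1.2, h2.1, h2.2]
  · exact h3
  · exfalso
    have : (Y : ℝ) + 1 ≤ X := by exact_mod_cast h3
    linarith only [this, h1.1, h1.2, h2.1, h2.2]

theorem col_unique {x : ℝ} {c d : ℕ} (h1 : (c : ℝ) ≤ x) (h2 : x < c + 1) (h3 : (d : ℝ) ≤ x)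
    (h4 : x < d + 1) : c = d := by
  rcases lt_trichotomy c d with h | h | h
  · exfalso
    have : (c : ℝ) + 1 ≤ d := by exact_mod_cast h
    linarith
  · exact h
  · exfalso
    have : (d : ℝ) + 1 ≤ c := by exact_mod_cast h
    linarith

/-- columns and recesses are disjoint -/
theorem PP_WW (hG1 : G1Stmt) (ha3 : PA3Stmt) (hb2 : PB2Stmt) (hG : G.OK)
    (hs : Small ((1 / 2) ^ m) G) {z : ℂ} {c X : ℕ} (hc : c < G.M) (hX : X ≤ G.M)
    (h : PP m G z c) (h' : WW m G z X) : False := by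
  obtain ⟨htq, htq', htr, htr'⟩ := smallQ hG1 hG hs
  have hrw := (hG1 _ G hG hs).2.2.2.1
  obtain ⟨p1, p2, p3, p4⟩ := h
  rcases h' with ⟨hlt, h1, h2, h3, h4⟩ | ⟨hlt, h1, h2, h3, h4⟩
  · have hf := fW_le htr z.im
    have h6 : ((1 / 2 : ℝ) ^ m) ^ 3 ≤ (1 / 2 : ℝ) ^ m / 8 := by
      have := mul_pos htr htr
      nlinarith
    have h0 : 0 < X := by
      rcases Nat.eq_zero_or_pos X with h0 | h0
      · exfalso
        rw [h0] at h4
        have : (0 : ℝ) ≤ c := Nat.cast_nonneg c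
        push_cast at h4
        linarith only [p1, h4]
      · exact h0
    have hcX : c = X - 1 := by
      have e : ((X - 1 : ℕ) : ℝ) = X - 1 := by
        rw [Nat.cast_sub (by omega)]; simp
      refine col_unique p1 p2 ?_ ?_
      · rw [e]; linarith only [htr', h3, hf, h6]
      · rw [e]; linarith only [h4]
    subst hcX
    have e : ((X - 1 : ℕ) : ℝ) = X - 1 := by
      rw [Nat.cast_sub (by omega)]; simp
    have hL := (ne_facts hG hX hlt.ne).2 h0
    have h7 := (ceil_vals hG1 ha3 hb2 hG hs hc).2.2.2.2 (z.re - ((X - 1 : ℕ) : ℝ))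
      (by rw [e]; linarith only [h3, hf, h6]) (by rw [e]; linarith only [h4]) hL
    have h8 : (G.topL X : ℝ) = G.N + ((G.kd (X - 1)).h : ℝ) := by
      unfold Lay.topL
      rw [if_neg (by omega)]
      unfold Lay.top
      push_cast
      rfl
    have h9 := (abs_le.mp h7).2
    have h10 : fW ((1 / 2) ^ m) z.im = 0 := fW_zero htr h1 (by linarith only [h3, h4, hf, h6, p4, h8, h9]) htr'
    linarith only [h3, h4, h10]
  · have hg := gW_le (G := G) (t := (1 / 2) ^ m) (X := X) htr (fun r => (hrw X r).2.2.2)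
      (fun r => (hrw X r).2.2.1) z.im
    have hcX : c = X := by
      refine col_unique p1 p2 h4 ?_
      linarith
    subst hcX
    have hR := (ne_facts hG hX hlt.ne').1 hc
    have h7 := (ceil_vals hG1 ha3 hb2 hG hs hc).2.2.2.1 (z.re - c) (by linarith) (by linarith only [p1, h3, hg]) hR
    have h8 : (G.topR c : ℝ) = G.N + ((G.kd c).h : ℝ) := by
      rw [topR_of hc]
      push_cast
      rfl
    have h9 := (abs_le.mp h7).2
    have h10 : gW G ((1 / 2) ^ m) c z.im = 0 := gW_zero htr h1 (by linarith only [p1, p4, h3, hg, h8, h9]) htr'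
    linarith only [p1, h3, h10]

/-- a point on the left side of a column -/
theorem col_left (hG1 : G1Stmt) (ha3 : PA3Stmt) (hb2 : PB2Stmt) (hG : G.OK)
    (hs : Small ((1 / 2) ^ m) G) {z : ℂ} {c : ℕ} (hc : c < G.M) (hre : z.re = c)
    (h0 : 0 ≤ z.im) (h1 : z.im ≤ G.J ((1 / 2) ^ m) c) : PP m G z c := by
  obtain ⟨htq, htq', htr, htr'⟩ := smallQ hG1 hG hs
  refine ⟨by rw [hre], by rw [hre]; linarith, ?_, ?_⟩
  · rw [hre, sub_self, (locFl_ends G c htr htr').1]
    exact h0
  · rw [hre, sub_self, (ceil_vals hG1 ha3 hb2 hG hs hc).1]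
    exact h1

theorem col_right (hG1 : G1Stmt) (ha3 : PA3Stmt) (hb2 : PB2Stmt) (hG : G.OK)
    (hs : Small ((1 / 2) ^ m) G) {z : ℂ} {c : ℕ} (hc : c < G.M) (hre : z.re = c + 1)
    (h0 : 0 ≤ z.im) (h1 : z.im ≤ G.J' ((1 / 2) ^ m) c) : z ∈ G.cont ((1 / 2) ^ m) := by
  obtain ⟨htq, htq', htr, htr'⟩ := smallQ hG1 hG hs
  refine Or.inl (Set.mem_iUnion.mpr ⟨⟨c, hc⟩, ?_, ?_, ?_, ?_⟩)
  · show (c : ℝ) ≤ z.re
    linarith only [hre]
  · show z.re ≤ (c : ℝ) + 1
    linarith only [hre]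
  · show G.locFl ((1 / 2) ^ m) c (z.re - c) ≤ z.im
    rw [hre, add_sub_cancel_left, (locFl_ends G c htr htr').2]
    exact h0
  · show z.im ≤ G.locCe ((1 / 2) ^ m) c (z.re - c)
    rw [hre, add_sub_cancel_left, (ceil_vals hG1 ha3 hb2 hG hs hc).2.1]
    exact h1

theorem PP_cont {z : ℂ} {c : ℕ} (hc : c < G.M) (h : PP m G z c) : z ∈ G.cont ((1 / 2) ^ m) :=
  Or.inl (Set.mem_iUnion.mpr ⟨⟨c, hc⟩, h.1, h.2.1.le, h.2.2.1, h.2.2.2⟩)

theorem WW_cont (hG1 : G1Stmt) (hG : G.OK)
    (hs : Small ((1 / 2) ^ m) G) {z : ℂ} {X : ℕ} (hX : X ≤ G.M) (h : WW m G z X) :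
    z ∈ G.cont ((1 / 2) ^ m) := by
  obtain ⟨htq, htq', htr, htr'⟩ := smallQ hG1 hG hs
  rcases h with ⟨hlt, h1, h2, h3, h4⟩ | ⟨hlt, h1, h2, h3, h4⟩
  · refine left_recess htr hlt h1 h2 ?_ h3.le h4.le
    intro h
    rw [h] at h3
    linarith only [h3, h4]
  · refine right_recess htr hX hlt h1 h2 ?_ h4 h3.le
    intro h
    rw [h] at h3
    linarith only [h3, h4]

end

theorem pc2 (ha3 : PA3Stmt) (ha4 : PA4Stmt) (hb1 : PB1Stmt) (hb2 : PB2Stmt) (hb3 : PB3Stmt)
    (hb4 : PB4Stmt) (hG1 : G1Stmt) : PC2Stmt := by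
  classical
  intro m G hG hs
  obtain ⟨htq, htq', htr, htr'⟩ := smallQ hG1 hG hs
  have hrw := (hG1 _ G hG hs).2.2.2.1
  obtain ⟨F1, F2, F3, F4, F5, F6⟩ := hb1 m G hG hs
  obtain ⟨U1, U2, U3, U4, U5⟩ := hb4 m G hG hs G.M le_rfl
  have hM := hG.M_pos
  have hMq : (0 : ℚ) < G.M := by exact_mod_cast (by omega : 0 < G.M)
  obtain ⟨F7, F8, F9, F10⟩ := ha3 _ _ _ F1 F4 F2 F3 hMq
  have hwall : ∀ X, X ≤ G.M → WallFacts m G X := fun X hX => wall_facts hG1 ha4 hb3 hG hs hX
  -- the floor is below the ceiling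
  have hfc : ∀ c, c < G.M → ∀ x : ℝ, 0 ≤ x → x ≤ 1 →
      G.locFl ((1 / 2) ^ m) c x < G.locCe ((1 / 2) ^ m) c x := by
    intro c hc x h0 h1
    have h2 := locFl_le hG1 hG hs hc h0 h1
    have h3 := (ceil_vals hG1 ha3 hb2 hG hs hc).2.2.1 x h0 h1
    have h4 : (1 : ℝ) ≤ G.N := by exact_mod_cast N_pos G
    have h5 : (0 : ℝ) ≤ ((G.kd c).h : ℝ) := Nat.cast_nonneg _
    linarith only [h2, h3, h4]
  -- the points on the paths
  have hpath : ∀ z, (z ∈ pathSet (G.floorP ((1 / 2) ^ m)) ∨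
      z ∈ pathSet (G.upP ((1 / 2) ^ m) G.M)) → z ∈ G.cont ((1 / 2) ^ m) := by
    rintro z (hz | hz)
    · rw [F6] at hz
      obtain ⟨c, hc, h1, h2, h3⟩ := hz
      refine Or.inl (Set.mem_iUnion.mpr ⟨⟨c, hc⟩, h1, h2, ?_, ?_⟩)
      · exact h3.ge
      · rw [h3]
        exact (hfc c hc _ (by linarith only [h1]) (by linarith only [h2])).le
    · rw [U4] at hz
      rcases hz with hz | hz
      · simp only [Set.mem_iUnion, Finset.mem_range, exists_prop] at hz
        obtain ⟨X, hX, hz⟩ := hz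
        have hX' : X ≤ G.M := by omega
        rcases (hwall X hX').2.2 with ⟨heq, h, -⟩ | ⟨hlt, h, -⟩ | ⟨hlt, h, -⟩
        · rw [h, Set.mem_singleton_iff] at hz
          have hXM : X < G.M := by
            rcases Nat.lt_or_ge X G.M with h | h
            · exact h
            · exfalso
              unfold Lay.topL Lay.topR at heq
              rw [if_neg (by omega), if_neg (by omega)] at heq
              have := top_ge G (X - 1)
              have := N_pos G
              omega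
          refine PP_cont hXM (col_left hG1 ha3 hb2 hG hs hXM ?_ ?_ ?_)
          · rw [hz]; simp [pt]
          · rw [hz]
            show (0 : ℝ) ≤ ((G.J ((1 / 2) ^ m) X : ℚ) : ℝ)
            have h2 := (ceil_vals hG1 ha3 hb2 hG hs hXM).2.2.1 0 le_rfl zero_le_one
            rw [(ceil_vals hG1 ha3 hb2 hG hs hXM).1] at h2
            have h4 : (1 : ℝ) ≤ G.N := by exact_mod_cast N_pos G
            have h5 : (0 : ℝ) ≤ ((G.kd X).h : ℝ) := Nat.cast_nonneg _
            linarith only [h2, h4]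
          · rw [hz]; exact le_rfl
        · rw [h] at hz
          obtain ⟨h1, h2, h3⟩ := hz
          by_cases hf : fW ((1 / 2) ^ m) z.im = 0
          · rw [hf, sub_zero] at h3
            have hXM : X < G.M := by
              by_contra h
              unfold Lay.topR at hlt
              rw [if_neg h] at hlt
              omega
            refine PP_cont hXM (col_left hG1 ha3 hb2 hG hs hXM h3
              (le_trans (Nat.cast_nonneg _) h1) ?_)
            rw [J_of_not (ne_facts hG hX' hlt.ne).1]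
            push_cast
            exact h2
          · refine left_recess htr hlt h1 h2 hf h3.ge ?_
            rw [h3]
            linarith only [fW_nonneg htr z.im]
        · rw [h] at hz
          obtain ⟨h1, h2, h3⟩ := hz
          have h0 : 0 < X := by
            by_contra h
            unfold Lay.topL at hlt
            rw [if_pos (by omega)] at hlt
            omega
          by_cases hf : gW G ((1 / 2) ^ m) X z.im = 0
          · rw [hf, add_zero] at h3
            refine col_right hG1 ha3 hb2 hG hs (show X - 1 < G.M by omega) ?_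
              (le_trans (Nat.cast_nonneg _) h1) ?_
            · rw [h3, Nat.cast_sub (by omega)]; simp
            · rw [J'_of_not ((ne_facts hG hX' hlt.ne').2 h0)]
              push_cast
              have : G.topL X = G.top (X - 1) := if_neg (by omega)
              rw [← this]
              exact h2
          · refine right_recess htr hX' hlt h1 h2 hf ?_ h3.le
            rw [h3]
            have := gW_nonneg (G := G) (t := (1 / 2) ^ m) (X := X)
              (fun r => (hrw X r).2.2.2) z.im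
            linarith only [this]
      · simp only [Set.mem_iUnion, Finset.mem_range, exists_prop] at hz
        obtain ⟨c, hc, hz⟩ := hz
        obtain ⟨e1, e2, e3, e4, e5, e6, e7⟩ := hb2 m G c hG hs hc
        have h1 := (ceil_facts hG1 ha3 hb2 hG hs hc).2.1 z hz
        have h2 := e4 z hz
        refine Or.inl (Set.mem_iUnion.mpr ⟨⟨c, hc⟩, h1.1, h1.2, ?_, h2.1⟩)
        have h3 := locFl_le hG1 hG hs hc (x := z.re - c) (by linarith only [h1.1]) (by linarith only [h1.2])
        have h4 : (1 : ℝ) ≤ G.N := by exact_mod_cast N_pos G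
        have h5 : (0 : ℝ) ≤ ((G.kd c).h : ℝ) := Nat.cast_nonneg _
        show G.locFl ((1 / 2) ^ m) c (z.re - c) ≤ z.im
        linarith only [h3, h4, h2.2.1]
  ext z
  show (z ∈ pathSet (G.floorP ((1 / 2) ^ m)) ∨ z ∈ pathSet (G.upP ((1 / 2) ^ m) G.M) ∨
    Odd (cr z (G.floorP ((1 / 2) ^ m)) + cr z (G.upP ((1 / 2) ^ m) G.M))) ↔ _
  by_cases hzp : z ∈ pathSet (G.floorP ((1 / 2) ^ m)) ∨ z ∈ pathSet (G.upP ((1 / 2) ^ m) G.M)
  · refine ⟨fun _ => hpath z hzp, fun _ => ?_⟩
    rcases hzp with h | h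
    · exact Or.inl h
    · exact Or.inr (Or.inl h)
  push Not at hzp
  obtain ⟨hzF, hzU⟩ := hzp
  have hzw : ∀ X, X ≤ G.M → z ∉ pathSet (G.wallP ((1 / 2) ^ m) X) := by
    intro X hX h
    apply hzU
    rw [U4]
    left
    simp only [Set.mem_iUnion, Finset.mem_range, exists_prop]
    exact ⟨X, by omega, h⟩
  have hzc : ∀ c, c < G.M → z ∉ pathSet (G.ceilP ((1 / 2) ^ m) c) := by
    intro c hc h
    apply hzU
    rw [U4]
    right
    simp only [Set.mem_iUnion, Finset.mem_range, exists_prop]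
    exact ⟨c, hc, h⟩
  -- parity of the ceilings
  have hA1 : (∑ c ∈ Finset.range G.M, cr z (G.ceilP ((1 / 2) ^ m) c)) % 2 = 1 ↔
      ∃ c, c < G.M ∧ ((c : ℝ) ≤ z.re ∧ z.re < c + 1 ∧
        z.im ≤ G.locCe ((1 / 2) ^ m) c (z.re - c)) := by
    refine parity_sum _ _ _ ?_ ?_
    · intro c hc
      obtain ⟨e1, e2, e3, e4, e5, e6, e7⟩ := hb2 m G c hG hs hc
      have hh : (G.ceilP ((1 / 2) ^ m) c).head? = some ((c : ℚ), G.J ((1 / 2) ^ m) c) := rfl
      obtain ⟨g1, g2, g3, g4⟩ := ha3 _ _ _ e1 e2 hh e3 (by simp)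
      refine (ite_one (g4 z (hzc c hc))).trans ?_
      push_cast
      constructor
      · rintro ⟨h1, h2, h3⟩
        exact ⟨h1, h2, (e5 z h1 h2 (hzc c hc)).mp h3⟩
      · rintro ⟨h1, h2, h3⟩
        exact ⟨h1, h2, (e5 z h1 h2 (hzc c hc)).mpr h3⟩
    · rintro i j hi hj ⟨h1, h2, -⟩ ⟨h3, h4, -⟩
      exact col_unique h1 h2 h3 h4
  have hA2 : (cr z (G.floorP ((1 / 2) ^ m))) % 2 = 1 ↔
      ∃ c, c < G.M ∧ ((c : ℝ) ≤ z.re ∧ z.re < c + 1 ∧
        z.im < G.locFl ((1 / 2) ^ m) c (z.re - c)) := by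
    refine (ite_one (F10 z hzF)).trans ?_
    push_cast
    constructor
    · rintro ⟨h1, h2, h3⟩
      have h4 : ((⌊z.re⌋₊ : ℕ) : ℝ) ≤ z.re := Nat.floor_le h1
      have h5 : z.re < ⌊z.re⌋₊ + 1 := Nat.lt_floor_add_one _
      have h6 : ⌊z.re⌋₊ < G.M := (Nat.floor_lt h1).mpr h2
      refine ⟨⌊z.re⌋₊, h6, h4, h5, ?_⟩
      rw [← F5 _ h6 z.re h4 h5.le]
      exact h3
    · rintro ⟨c, hc, h1, h2, h3⟩
      have h4 : (c : ℝ) + 1 ≤ G.M := by exact_mod_cast hc
      refine ⟨le_trans (Nat.cast_nonneg c) h1, by linarith only [h2, h4], ?_⟩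
      rw [F5 c hc z.re h1 h2.le]
      exact h3
  have hA : (cr z (G.floorP ((1 / 2) ^ m)) +
      ∑ c ∈ Finset.range G.M, cr z (G.ceilP ((1 / 2) ^ m) c)) % 2 = 1 ↔
      ∃ c, c < G.M ∧ PP m G z c := by
    by_cases h : ∃ c, c < G.M ∧ ((c : ℝ) ≤ z.re ∧ z.re < c + 1)
    · obtain ⟨c, hc, h1, h2⟩ := h
      have hlt := hfc c hc (z.re - c) (by linarith) (by linarith)
      have i1 : (∃ c, c < G.M ∧ ((c : ℝ) ≤ z.re ∧ z.re < c + 1 ∧
        z.im < G.locFl ((1 / 2) ^ m) c (z.re - c))) ↔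
          z.im < G.locFl ((1 / 2) ^ m) c (z.re - c) := by
        constructor
        · rintro ⟨d, hd, h3, h4, h5⟩
          rw [col_unique h1 h2 h3 h4]
          exact h5
        · intro h3
          exact ⟨c, hc, h1, h2, h3⟩
      have i2 : (∃ c, c < G.M ∧ ((c : ℝ) ≤ z.re ∧ z.re < c + 1 ∧
        z.im ≤ G.locCe ((1 / 2) ^ m) c (z.re - c))) ↔
          z.im ≤ G.locCe ((1 / 2) ^ m) c (z.re - c) := by
        constructor
        · rintro ⟨d, hd, h3, h4, h5⟩
          rw [col_unique h1 h2 h3 h4]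
          exact h5
        · intro h3
          exact ⟨c, hc, h1, h2, h3⟩
      have i3 : (∃ c, c < G.M ∧ PP m G z c) ↔ (G.locFl ((1 / 2) ^ m) c (z.re - c) ≤ z.im ∧
          z.im ≤ G.locCe ((1 / 2) ^ m) c (z.re - c)) := by
        constructor
        · rintro ⟨d, hd, h3, h4, h5⟩
          rw [col_unique h1 h2 h3 h4]
          exact h5
        · intro h3
          exact ⟨c, hc, h1, h2, h3⟩
      rw [i2] at hA1
      rw [i1] at hA2
      rw [i3]
      by_cases h3 : z.im < G.locFl ((1 / 2) ^ m) c (z.re - c)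
      · have h4 := hA2.mpr h3
        have h5 := hA1.mpr (by linarith only [hlt, h3])
        constructor
        · intro h6; omega
        · intro h6; exfalso; linarith only [h3, h6.1]
      · have h4 : ¬ (cr z (G.floorP ((1 / 2) ^ m)) % 2 = 1) := fun h => h3 (hA2.mp h)
        push Not at h3
        by_cases h5 : z.im ≤ G.locCe ((1 / 2) ^ m) c (z.re - c)
        · have h6 := hA1.mpr h5
          exact ⟨fun _ => ⟨h3, h5⟩, fun _ => by omega⟩
        · have h6 : ¬ ((∑ c ∈ Finset.range G.M, cr z (G.ceilP ((1 / 2) ^ m) c)) % 2 = 1) :=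
            fun h => h5 (hA1.mp h)
          constructor
          · intro h7; omega
          · intro h7; exact absurd h7.2 h5
    · have h4 : ¬ (cr z (G.floorP ((1 / 2) ^ m)) % 2 = 1) := by
        rw [hA2]
        rintro ⟨c, hc, h1, h2, -⟩
        exact h ⟨c, hc, h1, h2⟩
      have h6 : ¬ ((∑ c ∈ Finset.range G.M, cr z (G.ceilP ((1 / 2) ^ m) c)) % 2 = 1) := by
        rw [hA1]
        rintro ⟨c, hc, h1, h2, -⟩
        exact h ⟨c, hc, h1, h2⟩
      constructor
      · intro h7; omega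
      · rintro ⟨c, hc, h1, h2, -⟩
        exact absurd ⟨c, hc, h1, h2⟩ h
  have hB : (∑ X ∈ Finset.range (G.M + 1), cr z (G.wallP ((1 / 2) ^ m) X)) % 2 = 1 ↔
      ∃ X, X < G.M + 1 ∧ WW m G z X := by
    refine parity_sum _ _ _ ?_ ?_
    · intro X hX
      have hX' : X ≤ G.M := by omega
      rcases (hwall X hX').2.2 with ⟨heq, -, h⟩ | ⟨hlt, -, h⟩ | ⟨hlt, -, h⟩
      · rw [h z]
        constructor
        · intro h1; norm_num at h1
        · rintro (⟨h1, -⟩ | ⟨h1, -⟩) <;> omega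
      · refine (ite_one (h z (hzw X hX'))).trans ?_
        constructor
        · rintro ⟨h1, h2, h3, h4⟩
          exact Or.inl ⟨hlt, h1, h2, h3, h4⟩
        · rintro (⟨h0, h1, h2, h3, h4⟩ | ⟨h0, -⟩)
          · exact ⟨h1, h2, h3, h4⟩
          · omega
      · refine (ite_one (h z (hzw X hX'))).trans ?_
        constructor
        · rintro ⟨h1, h2, h3, h4⟩
          exact Or.inr ⟨hlt, h1, h2, h3, h4⟩
        · rintro (⟨h0, -⟩ | ⟨h0, h1, h2, h3, h4⟩)
          · omega
          · exact ⟨h1, h2, h3, h4⟩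
    · intro i j _ _ hi hj
      exact WW_unique hG1 hG hs hi hj
  have hodd : Odd (cr z (G.floorP ((1 / 2) ^ m)) + cr z (G.upP ((1 / 2) ^ m) G.M)) ↔
      ((∃ c, c < G.M ∧ PP m G z c) ∨ ∃ X, X < G.M + 1 ∧ WW m G z X) := by
    rw [U5 z, Nat.odd_iff]
    have e : cr z (G.floorP ((1 / 2) ^ m)) +
        (∑ X ∈ Finset.range (G.M + 1), cr z (G.wallP ((1 / 2) ^ m) X) +
        ∑ c ∈ Finset.range G.M, cr z (G.ceilP ((1 / 2) ^ m) c)) =
        (cr z (G.floorP ((1 / 2) ^ m)) + ∑ c ∈ Finset.range G.M, cr z (G.ceilP ((1 / 2) ^ m) c)) +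
        ∑ X ∈ Finset.range (G.M + 1), cr z (G.wallP ((1 / 2) ^ m) X) := by ring
    rw [e]
    by_cases h1 : ∃ c, c < G.M ∧ PP m G z c
    · by_cases h2 : ∃ X, X < G.M + 1 ∧ WW m G z X
      · exfalso
        obtain ⟨c, hc, h3⟩ := h1
        obtain ⟨X, hX, h4⟩ := h2
        exact PP_WW hG1 ha3 hb2 hG hs hc (by omega) h3 h4
      · have h3 := hA.mpr h1
        have h4 : ¬ ((∑ X ∈ Finset.range (G.M + 1), cr z (G.wallP ((1 / 2) ^ m) X)) % 2 = 1) :=
          fun h => h2 (hB.mp h)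
        exact ⟨fun _ => Or.inl h1, fun _ => by omega⟩
    · have h3 : ¬ ((cr z (G.floorP ((1 / 2) ^ m)) +
          ∑ c ∈ Finset.range G.M, cr z (G.ceilP ((1 / 2) ^ m) c)) % 2 = 1) :=
        fun h => h1 (hA.mp h)
      by_cases h2 : ∃ X, X < G.M + 1 ∧ WW m G z X
      · have h4 := hB.mpr h2
        exact ⟨fun _ => Or.inr h2, fun _ => by omega⟩
      · have h4 : ¬ ((∑ X ∈ Finset.range (G.M + 1), cr z (G.wallP ((1 / 2) ^ m) X)) % 2 = 1) :=
          fun h => h2 (hB.mp h)
        constructor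
        · intro h; omega
        · rintro (h | h)
          · exact absurd h h1
          · exact absurd h h2
  constructor
  · rintro (h | h | h)
    · exact absurd h hzF
    · exact absurd h hzU
    · rw [hodd] at h
      rcases h with ⟨c, hc, h⟩ | ⟨X, hX, h⟩
      · exact PP_cont hc h
      · exact WW_cont hG1 hG hs (by omega) h
  · intro h
    refine Or.inr (Or.inr (hodd.mpr ?_))
    rcases h with h | h
    · obtain ⟨⟨c, hc⟩, h1, h2, h3, h4⟩ := Set.mem_iUnion.mp h
      change (c : ℝ) ≤ z.re at h1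
      change z.re ≤ (c : ℝ) + 1 at h2
      change G.locFl ((1 / 2) ^ m) c (z.re - c) ≤ z.im at h3
      change z.im ≤ G.locCe ((1 / 2) ^ m) c (z.re - c) at h4
      rcases lt_or_eq_of_le h2 with h2 | h2
      · exact Or.inl ⟨c, hc, h1, h2, h3, h4⟩
      · rw [h2, add_sub_cancel_left, (locFl_ends G c htr htr').2] at h3
        rw [h2, add_sub_cancel_left, (ceil_vals hG1 ha3 hb2 hG hs hc).2.1] at h4
        have hX : c + 1 ≤ G.M := hc
        have hre : z.re = ((c + 1 : ℕ) : ℝ) := by rw [h2]; push_cast; rfl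
        by_cases h5 : c + 1 < G.M ∧ z.im ≤ G.J ((1 / 2) ^ m) (c + 1)
        · exact Or.inl ⟨c + 1, h5.1, col_left hG1 ha3 hb2 hG hs h5.1 hre h3 h5.2⟩
        · -- the wall on the right
          have hne : G.topL (c + 1) ≠ G.topR (c + 1) := by
            intro heq
            have hJ := J_eq_J' hG ((1 / 2) ^ m) hX (by omega) heq
            rw [Nat.add_sub_cancel] at hJ
            apply h5
            refine ⟨?_, by rw [← hJ]; exact h4⟩
            by_contra h6
            unfold Lay.topL Lay.topR at heq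
            rw [if_neg (by omega), if_neg h6] at heq
            have := top_ge G (c + 1 - 1)
            have := N_pos G
            omega
          obtain ⟨n1, n2⟩ := ne_facts hG hX hne
          have n3 := n2 (by omega)
          rw [Nat.add_sub_cancel] at n3
          rw [J'_of_not n3] at h4
          have hL : G.topL (c + 1) = G.top c := by
            unfold Lay.topL
            rw [if_neg (by omega), Nat.add_sub_cancel]
          have h6 : (G.topR (c + 1) : ℝ) ≤ z.im := by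
            by_cases h7 : c + 1 < G.M
            · have h8 : ¬ (z.im ≤ G.J ((1 / 2) ^ m) (c + 1)) := fun h8 => h5 ⟨h7, h8⟩
              rw [J_of_not n1] at h8
              push_cast at h8
              linarith only [h8]
            · unfold Lay.topR
              rw [if_neg h7]
              push_cast
              exact h3
          have h7 : z.im ≤ G.topL (c + 1) := by
            rw [hL]
            push_cast at h4
            exact h4
          have hlt : G.topR (c + 1) < G.topL (c + 1) := by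
            have h8 : (G.topR (c + 1) : ℝ) ≤ G.topL (c + 1) := h6.trans h7
            have h9 : G.topR (c + 1) ≤ G.topL (c + 1) := by exact_mod_cast h8
            omega
          right
          refine ⟨c + 1, by omega, Or.inr ⟨hlt, h6, h7, ?_, hre.ge⟩⟩
          have hg := gW_nonneg (G := G) (t := (1 / 2) ^ m) (X := c + 1)
            (fun r => (hrw (c + 1) r).2.2.2) z.im
          rcases lt_or_eq_of_le hg with hg | hg
          · rw [hre]; linarith only [hg]
          · exfalso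
            apply hzw (c + 1) hX
            rcases (hwall (c + 1) hX).2.2 with ⟨heq, -, -⟩ | ⟨hlt', -, -⟩ | ⟨-, h8, -⟩
            · omega
            · omega
            · rw [h8]
              exact ⟨h6, h7, by rw [← hg, add_zero]; exact hre⟩
    · obtain ⟨X, r, hr, h1, h2⟩ := h
      have hfl := floor_of_trap htr h1
      obtain ⟨b1, b2⟩ := trap_range htr h1
      rcases h2 with ⟨h2, h3, h4⟩ | ⟨h2, h3, h4⟩
      · unfold Lay.wallL at h2
        rw [Bool.and_eq_true] at h2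
        obtain ⟨h5, h6⟩ := h2
        unfold Lay.pres at h5 h6
        simp only [Bool.and_eq_true, decide_eq_true_eq] at h5
        have hXM := h5.1
        have hR : G.topR X = G.top X := if_pos hXM
        have hL : G.topL X ≤ r := by
          unfold Lay.topL
          split_ifs with h0
          · omega
          · simp only [h0, decide_false, Bool.false_or, Bool.not_eq_true', Bool.and_eq_false_iff,
              decide_eq_false_iff_not, not_lt] at h6
            rcases h6 with h6 | h6 <;> omega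
        have h7 : (G.topL X : ℝ) ≤ r := by exact_mod_cast hL
        have h8 : ((r : ℕ) : ℝ) + 1 ≤ G.topR X := by
          rw [hR]; exact_mod_cast h5.2
        have hlt : G.topL X < G.topR X := by rw [hR]; omega
        have h9 : (G.topL X : ℝ) ≤ z.im := by linarith only [htr, b1, h7]
        have h10 : z.im ≤ G.topR X := by linarith only [htr, b2, h8]
        have hf : fW ((1 / 2) ^ m) z.im = ((1 / 2) ^ m) ^ 3 * trap ((1 / 2) ^ m) (z.im - r) := by
          unfold fW
          rw [hfl, if_pos hr, max_eq_right h1]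
        rcases lt_or_eq_of_le h4 with h4 | h4
        · right
          refine ⟨X, by omega, Or.inl ⟨hlt, h9, h10, ?_, h4⟩⟩
          rw [hf]
          refine lt_of_le_of_ne h3 ?_
          intro h11
          apply hzw X hXM.le
          rcases (hwall X hXM.le).2.2 with ⟨heq, -, -⟩ | ⟨-, h12, -⟩ | ⟨hlt', -, -⟩
          · omega
          · rw [h12]
            exact ⟨h9, h10, by rw [hf]; exact h11.symm⟩
          · omega
        · left
          refine ⟨X, hXM, col_left hG1 ha3 hb2 hG hs hXM h4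
            (le_trans (Nat.cast_nonneg _) h9) ?_⟩
          rw [J_of_not (ne_facts hG hXM.le hlt.ne).1]
          push_cast
          exact h10
      · unfold Lay.wallR at h2
        rw [Bool.and_eq_true, Bool.and_eq_true, decide_eq_true_eq] at h2
        obtain ⟨⟨h0, h5⟩, h6⟩ := h2
        unfold Lay.pres at h5 h6
        simp only [Bool.and_eq_true, decide_eq_true_eq] at h5
        have hL : G.topL X = G.top (X - 1) := if_neg (by omega)
        have hXM : X ≤ G.M := by omega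
        have hR : G.topR X ≤ r := by
          unfold Lay.topR
          split_ifs with h7
          · simp only [h7, decide_true, Bool.true_and, Bool.not_eq_true',
              decide_eq_false_iff_not, not_lt] at h6
            exact h6
          · omega
        have h7 : (G.topR X : ℝ) ≤ r := by exact_mod_cast hR
        have h8 : ((r : ℕ) : ℝ) + 1 ≤ G.topL X := by
          rw [hL]; exact_mod_cast h5.2
        have hlt : G.topR X < G.topL X := by rw [hL]; omega
        have h9 : (G.topR X : ℝ) ≤ z.im := by linarith only [htr, b1, h7]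
        have h10 : z.im ≤ G.topL X := by linarith only [htr, b2, h8]
        have hf : gW G ((1 / 2) ^ m) X z.im =
            G.rw ((1 / 2) ^ m) X r * trap ((1 / 2) ^ m) (z.im - r) := by
          unfold gW
          rw [hfl, if_pos hr, max_eq_right h1]
        right
        refine ⟨X, by omega, Or.inr ⟨hlt, h9, h10, ?_, h3⟩⟩
        rw [hf]
        refine lt_of_le_of_ne h4 ?_
        intro h11
        apply hzw X hXM
        rcases (hwall X hXM).2.2 with ⟨heq, -, -⟩ | ⟨hlt', -, -⟩ | ⟨-, h12, -⟩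
        · omega
        · omega
        · rw [h12]
          exact ⟨h9, h10, by rw [hf]; exact h11⟩

end Pool.Agent.Helper2_Pak.H17
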